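import Mathlib
import Pool.Agent.Y60.DC.Def
import Pool.Agent.Y419.DC.CF

/-!
Composition factors of extensions and of subdirect products.
-/

set_option autoImplicit false

namespace Pool.Agent.L7h25.FP

open Pool.Agent.Y60.DC

section comp

variable {S : ∀ (T : Type) [Group T], Prop}

/-- Extensions. -/
theorem compIn_ext
    (hiso : ∀ (T T' : Type) [Group T] [Group T'], Nonempty (T ≃* T') → S T → S T')
    (hsim : ∀ (T : Type) [Group T], S T → IsSimpleGroup T) {B : Type} [iB : Group B]
    (hB : CompIn S B) : ∀ (A : Type) [Group A] (f : A →* B), Function.Surjective f →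
      CompIn S f.ker → CompIn S A := by
  induction hB with
  | one B h =>
    intro A _ f hf hk
    exact Pool.Agent.Y419.DC.quot hiso hsim hk A f.ker.subtype fun a =>
      ⟨⟨a, (MonoidHom.mem_ker).2 (Subsingleton.elim _ _)⟩, rfl⟩
  | ext B M hM hS ih =>
    intro A _ f hf hk
    have hfs : Function.Surjective ((QuotientGroup.mk' M).comp f) :=
      (QuotientGroup.mk'_surjective M).comp hf
    have hmem : ∀ x : ((QuotientGroup.mk' M).comp f).ker, f x.1 ∈ M := by
      intro x
      have := x.2
      rw [MonoidHom.mem_ker] at this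
      exact (QuotientGroup.eq_one_iff _).1 this
    refine Pool.Agent.Y419.DC.ext' hiso ((QuotientGroup.mk' M).comp f) hfs ?_ hS
    let φ : ((QuotientGroup.mk' M).comp f).ker →* M :=
      (f.comp ((QuotientGroup.mk' M).comp f).ker.subtype).codRestrict M hmem
    have hφ : Function.Surjective φ := by
      rintro ⟨m, hm⟩
      obtain ⟨a, rfl⟩ := hf m
      refine ⟨⟨a, ?_⟩, rfl⟩
      rw [MonoidHom.mem_ker]
      exact (QuotientGroup.eq_one_iff _).2 hm
    refine ih _ φ hφ ?_
    refine Pool.Agent.Y419.DC.quot hiso hsim hk φ.ker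
      { toFun := fun x => ⟨⟨x.1, by
          rw [MonoidHom.mem_ker, MonoidHom.comp_apply, (MonoidHom.mem_ker).1 x.2, map_one]⟩, by
          rw [MonoidHom.mem_ker]
          exact Subtype.ext ((MonoidHom.mem_ker).1 x.2)⟩
        map_one' := rfl
        map_mul' := fun _ _ => rfl } ?_
    rintro ⟨⟨x, hx⟩, hx'⟩
    refine ⟨⟨x, ?_⟩, rfl⟩
    rw [MonoidHom.mem_ker] at hx' ⊢
    exact congrArg (fun z : M => (z : B)) hx'

/-- Subdirect products. -/
theorem compIn_two
    (hiso : ∀ (T T' : Type) [Group T] [Group T'], Nonempty (T ≃* T') → S T → S T')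
    (hsim : ∀ (T : Type) [Group T], S T → IsSimpleGroup T) {A B C : Type} [Group A] [Group B]
    [Group C] (φ : A →* B) (ψ : A →* C) (hφ : Function.Surjective φ)
    (hψ : Function.Surjective ψ) (hB : CompIn S B) (hC : CompIn S C)
    (hinj : ∀ a, φ a = 1 → ψ a = 1 → a = 1) : CompIn S A ∧ CompIn S φ.ker := by
  have h1 : CompIn S φ.ker := by
    refine Pool.Agent.Y419.DC.sub hiso hsim hC φ.ker (ψ.comp φ.ker.subtype) ?_ ?_
    · rw [injective_iff_map_eq_one]
      rintro ⟨a, ha⟩ h
      exact Subtype.ext (hinj a ha h)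
    · rw [MonoidHom.range_comp, Subgroup.range_subtype]
      exact Subgroup.Normal.map inferInstance ψ hψ
  exact ⟨compIn_ext hiso hsim hB A φ hφ h1, h1⟩

theorem compIn_iso
    (hiso : ∀ (T T' : Type) [Group T] [Group T'], Nonempty (T ≃* T') → S T → S T')
    (hsim : ∀ (T : Type) [Group T], S T → IsSimpleGroup T) {A B : Type} [Group A] [Group B]
    (e : A ≃* B) (h : CompIn S A) : CompIn S B :=
  Pool.Agent.Y419.DC.quot hiso hsim h B e.toMonoidHom e.surjective

end comp

end Pool.Agent.L7h25.FP
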