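import Mathlib
import Pool.Agent.Y60.DC.Def

/-!
# Definitions for the theorem on free pro-`C` Galois groups
-/

set_option autoImplicit false

namespace Pool.Agent.L7h25.FP

open Pool.Agent.Y60.DC

/-- The sequence `a` of elements of the group `W` is almost everywhere `1` and generates `W`. -/
def Marked {W : Type} [Group W] (a : ℕ → W) : Prop :=
  (∃ m, ∀ i, m ≤ i → a i = 1) ∧ Subgroup.closure (Set.range a) = ⊤

/-- The class `S` of groups contains with a group all isomorphic groups. -/
def IsoClosed (S : ∀ (T : Type) [Group T], Prop) : Prop :=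
  ∀ (T T' : Type) [Group T] [Group T'], Nonempty (T ≃* T') → S T → S T'

section

variable {K Ω : Type} [Field K] [Field Ω] [Algebra K Ω]

/-- The group `Gal(M/L)`, if `L ≤ M`: the elements of `Gal(M/K)` which fix all elements of `M` which
are in `L`. -/
def relGal (L M : IntermediateField K Ω) : Subgroup (M ≃ₐ[K] M) where
  carrier := {σ | ∀ x : M, (x : Ω) ∈ L → σ x = x}
  mul_mem' := by
    intro σ τ hσ hτ x hx
    rw [AlgEquiv.mul_apply, hτ x hx, hσ x hx]
  one_mem' := fun x _ => rfl
  inv_mem' := by
    intro σ hσ x hx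
    have h := hσ x hx
    calc σ⁻¹ x = σ⁻¹ (σ x) := by rw [h]
      _ = x := σ.symm_apply_apply x

/-- `M/K` is a finite Galois extension, `L ≤ M`, and `Gal(M/L)` has a composition series with all
factors in `S`. -/
def IsLayer (S : ∀ (T : Type) [Group T], Prop) (L M : IntermediateField K Ω) : Prop :=
  FiniteDimensional K M ∧ IsGalois K M ∧ L ≤ M ∧ CompIn S (relGal L M)

/-- The compositum of all finite Galois extensions `M/K` with `L ≤ M` for which `Gal(M/L)` has a
composition series with all factors in `S`. -/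
def maxExt (S : ∀ (T : Type) [Group T], Prop) (L : IntermediateField K Ω) :
    IntermediateField K Ω :=
  sSup {M | IsLayer S L M}

/-- The kernel of the homomorphism `h` of `Gal(E/K)` is open. -/
def OpenKer {E : IntermediateField K Ω} {B : Type} [Group B] (h : (E ≃ₐ[K] E) →* B) : Prop :=
  IsOpen (h.ker : Set (E ≃ₐ[K] E))

/-- The restriction of `σ` in `Gal(E/K)` to the subfield `L` of `E` is `τ` in `Gal(L/K)`. -/
def RestrictsTo {E L : IntermediateField K Ω} (σ : E ≃ₐ[K] E) (τ : L ≃ₐ[K] L) : Prop :=
  ∀ (x : E) (y : L), (x : Ω) = y → ((σ x : E) : Ω) = (τ y : L)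

/-- The sequence `σ` in `Gal(E/K)` converges to `1`: each element of `E` is fixed by almost all
`σ i`. -/
def ToOne {E : IntermediateField K Ω} (σ : ℕ → (E ≃ₐ[K] E)) : Prop :=
  ∀ x : E, ∃ m, ∀ i, m ≤ i → σ i x = x

/-- `Gal(E/L)` is a pro-`C` group, `C` the class of finite groups with composition factors in `S`:
the images of `Gal(E/L)` under the epimorphisms of `Gal(E/K)` with open kernel are in `C`. -/
def ProOver (S : ∀ (T : Type) [Group T], Prop) (L E : IntermediateField K Ω) : Prop :=
  ∀ (B : Type) [Group B] (h : (E ≃ₐ[K] E) →* B), Function.Surjective h → OpenKer h →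
    CompIn S ((relGal L E).map h)

/-- The universal property of the sequence `σ` in `Gal(E/K)` over the sequence `γ` in `Gal(L/K)`: for
all finite groups `B` with a homomorphism `π : B → Gal(L/K)` whose kernel has composition factors in
`S` and all sequences `b` generating `B` which are almost everywhere `1` with `π (b i) = γ i` there
is a unique homomorphism `h : Gal(E/K) → B` with open kernel such that `h (σ i) = b i` for all `i`;
for this `h`, `π (h τ)` is the restriction of `τ` to `L`. -/
def Universal (S : ∀ (T : Type) [Group T], Prop) (L E : IntermediateField K Ω)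
    (γ : ℕ → (L ≃ₐ[K] L)) (σ : ℕ → (E ≃ₐ[K] E)) : Prop :=
  ∀ (B : Type) [Group B] [Finite B] (π : B →* (L ≃ₐ[K] L)), CompIn S π.ker →
    ∀ b : ℕ → B, Marked b → (∀ i, π (b i) = γ i) →
      ∃ h : (E ≃ₐ[K] E) →* B, OpenKer h ∧ (∀ i, h (σ i) = b i) ∧
        (∀ τ : E ≃ₐ[K] E, RestrictsTo τ (π (h τ))) ∧
        ∀ h' : (E ≃ₐ[K] E) →* B, OpenKer h' → (∀ i, h' (σ i) = b i) → h' = h

/-- `Gal(E/K)` is the free extension of the finite group `Gal(L/K)` by pro-`C` groups, `C` the class
of finite groups with composition factors in `S`, with respect to the sequence `γ` in `Gal(L/K)`: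
`E/K` is Galois, `L ≤ E`, `Gal(E/L)` is pro-`C`, and there is a sequence `σ` in `Gal(E/K)`
converging to `1` whose restriction to `L` is `γ` and which has the universal property. -/
def IsFree (S : ∀ (T : Type) [Group T], Prop) (L E : IntermediateField K Ω)
    (γ : ℕ → (L ≃ₐ[K] L)) : Prop :=
  IsGalois K E ∧ L ≤ E ∧ ProOver S L E ∧
    ∃ σ : ℕ → (E ≃ₐ[K] E), (∀ i, RestrictsTo (σ i) (γ i)) ∧ ToOne σ ∧ Universal S L E γ σ

/-- The groups `Gal(E/K)` and `Gal(E'/K')` are isomorphic topological groups, by an isomorphism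
compatible with the isomorphism `e` of `Gal(L/K)` with `Gal(L'/K')`. -/
def SameGroups {K' Ω' : Type} [Field K'] [Field Ω'] [Algebra K' Ω']
    {L : IntermediateField K Ω} {L' : IntermediateField K' Ω'} (E : IntermediateField K Ω)
    (E' : IntermediateField K' Ω') (e : (L ≃ₐ[K] L) ≃* (L' ≃ₐ[K'] L')) : Prop :=
  ∃ Φ : (E ≃ₐ[K] E) ≃* (E' ≃ₐ[K'] E'), Continuous Φ ∧ Continuous Φ.symm ∧
    ∀ σ τ, RestrictsTo σ τ → RestrictsTo (Φ σ) (e τ)

/-- The compositum of all finite Galois extensions of `K` in `Ω` whose Galois groups have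
composition series with all factors in `S`: for `Ω` a separable closure of `K`, the maximal
pro-`C` extension of `K`. -/
def maxPro (S : ∀ (T : Type) [Group T], Prop) (K Ω : Type) [Field K] [Field Ω] [Algebra K Ω] :
    IntermediateField K Ω :=
  sSup {M | FiniteDimensional K M ∧ IsGalois K M ∧ CompIn S (M ≃ₐ[K] M)}

/-- The sequence `σ` is a basis of `Gal(E/K)` as a free pro-`C` group: for all groups `B` in `C` and
all sequences `b` generating `B` which are almost everywhere `1` there is a unique homomorphism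
`h : Gal(E/K) → B` with open kernel such that `h (σ i) = b i` for all `i`. -/
def IsBasisPro (S : ∀ (T : Type) [Group T], Prop) {E : IntermediateField K Ω}
    (σ : ℕ → (E ≃ₐ[K] E)) : Prop :=
  ∀ (B : Type) [Group B] [Finite B], CompIn S B → ∀ b : ℕ → B, Marked b →
    ∃! h : (E ≃ₐ[K] E) →* B, OpenKer h ∧ ∀ i, h (σ i) = b i

/-- `Gal(E/K)` is a free pro-`C` group of countable rank, `C` the class of finite groups with
composition factors in `S`: `E/K` is Galois, all finite quotients of `Gal(E/K)` by open subgroups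
are in `C`, and there is a sequence `σ` in `Gal(E/K)` which converges to `1` and is a basis. -/
def IsFreePro (S : ∀ (T : Type) [Group T], Prop) (E : IntermediateField K Ω) : Prop :=
  IsGalois K E ∧
  (∀ (B : Type) [Group B] (h : (E ≃ₐ[K] E) →* B), Function.Surjective h → OpenKer h →
    CompIn S B) ∧
  ∃ σ : ℕ → (E ≃ₐ[K] E), ToOne σ ∧ IsBasisPro S σ

end

/-- There is a Galois extension `F` of `K` containing `L` whose group is the inverse limit `Λ` of the
`W i` (all components of the isomorphism are continuous), such that `σ` acts on `L` as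
`e (component in W 0)`. -/
def SolvesTower (K L : Type) [Field K] [Field L] [Algebra K L] (W : ℕ → Type)
    [∀ i, Group (W i)] (Λ : Subgroup (∀ i, W i)) (e : W 0 ≃* (L ≃ₐ[K] L)) : Prop :=
  ∃ (F : Type) (_ : Field F) (_ : Algebra K F) (_ : Algebra L F) (_ : IsScalarTower K L F)
    (_ : IsGalois K F) (ε : (F ≃ₐ[K] F) ≃* Λ),
    (∀ i, IsOpen {σ : F ≃ₐ[K] F | (ε σ).1 i = 1}) ∧
    ∀ (σ : F ≃ₐ[K] F) (x : L), σ (algebraMap L F x) = algebraMap L F (e ((ε σ).1 0) x)

end Pool.Agent.L7h25.FP
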