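import Mathlib
import Pool.Agent.L7h25.FP.Comp
import Pool.Agent.L7h25.FP.Voc

/-!
Free quotients of a profinite group with solvable embedding problems.
-/

set_option autoImplicit false

namespace Pool.Agent.L7h25.FP

open Pool.Agent.Y60.DC

section iter

theorem iterate {X : Type*} {T : Type*} [Countable T] [Nonempty T] (r : X → X → Prop)
    (D : T → X → Prop) (step : ∀ x t, ∃ y, r x y ∧ D t y) (x₀ : X) :
    ∃ x : ℕ → X, x 0 = x₀ ∧ (∀ n, r (x n) (x (n + 1))) ∧ ∀ t, ∃ n, D t (x n) := by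
  classical
  obtain ⟨e, he⟩ := exists_surjective_nat T
  choose F hF1 hF2 using step
  refine ⟨fun n => Nat.rec x₀ (fun n x => F x (e n)) n, rfl, fun n => hF1 _ _, fun t => ?_⟩
  obtain ⟨n, rfl⟩ := he t
  exact ⟨n + 1, hF2 _ _⟩

end iter

section marks

theorem exists_marks {W W' : Type} [Group W] [Group W'] [Finite W'] (φ : W' →* W)
    (hφ : Function.Surjective φ) (a : ℕ → W) (ha : Marked a) :
    ∃ a' : ℕ → W', Marked a' ∧ ∀ i, φ (a' i) = a i := by
  classical
  obtain ⟨⟨m, hm⟩, hgen⟩ := ha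
  choose c hc using hφ
  obtain ⟨n, ⟨e⟩⟩ := Finite.exists_equiv_fin φ.ker
  let a' : ℕ → W' := fun i => if i < m then c (a i) else
    if h : i - m < n then ((e.symm ⟨i - m, h⟩ : φ.ker) : W') else 1
  have h1 : ∀ i, i < m → a' i = c (a i) := fun i hi => if_pos hi
  have h2 : ∀ k : φ.ker, a' (m + (e k : ℕ)) = k := by
    intro k
    have h3 : ¬ (m + (e k : ℕ) < m) := by omega
    have h4 : m + (e k : ℕ) - m < n := by
      have := (e k).2
      omega
    change (if m + (e k : ℕ) < m then c (a (m + (e k : ℕ))) else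
      if h : m + (e k : ℕ) - m < n then ((e.symm ⟨m + (e k : ℕ) - m, h⟩ : φ.ker) : W') else 1) = k
    rw [if_neg h3, dif_pos h4]
    have h5 : (⟨m + (e k : ℕ) - m, h4⟩ : Fin n) = e k := Fin.ext (by simp)
    rw [h5, e.symm_apply_apply]
  have h6 : ∀ i, φ (a' i) = a i := by
    intro i
    by_cases hi : i < m
    · rw [h1 i hi, hc]
    · have h7 : a i = 1 := hm i (not_lt.1 hi)
      by_cases h : i - m < n
      · have h8 : a' i = ((e.symm ⟨i - m, h⟩ : φ.ker) : W') := by
          change (if i < m then c (a i) else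
            if h : i - m < n then ((e.symm ⟨i - m, h⟩ : φ.ker) : W') else 1) = _
          rw [if_neg hi, dif_pos h]
        rw [h8, h7]
        exact (MonoidHom.mem_ker).1 (e.symm ⟨i - m, h⟩).2
      · have h8 : a' i = 1 := by
          change (if i < m then c (a i) else
            if h : i - m < n then ((e.symm ⟨i - m, h⟩ : φ.ker) : W') else 1) = _
          rw [if_neg hi, dif_neg h]
        rw [h8, h7, map_one]
  refine ⟨a', ⟨⟨m + n, fun i hi => ?_⟩, ?_⟩, h6⟩
  · change (if i < m then c (a i) else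
            if h : i - m < n then ((e.symm ⟨i - m, h⟩ : φ.ker) : W') else 1) = _
    rw [if_neg (by omega), dif_neg (by omega)]
  · rw [eq_top_iff]
    intro w _
    have hk : φ.ker ≤ Subgroup.closure (Set.range a') := by
      intro k hk
      have h9 := h2 ⟨k, hk⟩
      exact Subgroup.subset_closure ⟨_, h9⟩
    have h10 : (Subgroup.closure (Set.range a')).map φ = ⊤ := by
      rw [MonoidHom.map_closure, ← Set.range_comp]
      have h11 : φ ∘ a' = a := funext h6
      rw [h11, hgen]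
    have h12 : φ w ∈ (Subgroup.closure (Set.range a')).map φ := by
      rw [h10]
      trivial
    obtain ⟨v, hv, hvw⟩ := h12
    have h13 : v⁻¹ * w ∈ φ.ker := by
      rw [MonoidHom.mem_ker, map_mul, map_inv, hvw, inv_mul_cancel]
    have h14 := Subgroup.mul_mem _ hv (hk h13)
    rwa [mul_inv_cancel_left] at h14

end marks

section

variable {S : ∀ (T : Type) [Group T], Prop}

theorem compIn_comp
    (hiso : ∀ (T T' : Type) [Group T] [Group T'], Nonempty (T ≃* T') → S T → S T')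
    (hsim : ∀ (T : Type) [Group T], S T → IsSimpleGroup T) {P W Γ : Type} [Group P] [Group W]
    [Group Γ] (φ : P →* W) (q : W →* Γ) (hφ : Function.Surjective φ) (h : CompIn S q.ker)
    (h1 : CompIn S φ.ker) : CompIn S (q.comp φ).ker := by
  let φ' : (q.comp φ).ker →* q.ker := (φ.comp (q.comp φ).ker.subtype).codRestrict q.ker
    (fun z => (MonoidHom.mem_ker).2 ((MonoidHom.mem_ker).1 z.2))
  refine compIn_ext hiso hsim h _ φ' ?_ ?_
  · rintro ⟨w, hw⟩
    obtain ⟨z, rfl⟩ := hφ w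
    exact ⟨⟨z, (MonoidHom.mem_ker).2 ((MonoidHom.mem_ker).1 hw)⟩, rfl⟩
  · refine Pool.Agent.Y419.DC.quot hiso hsim h1 φ'.ker
      { toFun := fun x => ⟨⟨x.1, by
          rw [MonoidHom.mem_ker, MonoidHom.comp_apply, (MonoidHom.mem_ker).1 x.2, map_one]⟩, by
          rw [MonoidHom.mem_ker]
          exact Subtype.ext ((MonoidHom.mem_ker).1 x.2)⟩
        map_one' := rfl
        map_mul' := fun _ _ => rfl } ?_
    rintro ⟨⟨x, hx⟩, hx'⟩
    refine ⟨⟨x, ?_⟩, rfl⟩
    rw [MonoidHom.mem_ker] at hx' ⊢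
    exact congrArg (fun z : q.ker => (z : W)) hx'

theorem sub_direct
    (hiso : ∀ (T T' : Type) [Group T] [Group T'], Nonempty (T ≃* T') → S T → S T')
    (hsim : ∀ (T : Type) [Group T], S T → IsSimpleGroup T) {P W W1 Γ : Type} [Group P] [Group W]
    [Group W1] [Group Γ] (φ : P →* W) (ψ : P →* W1) (q : W →* Γ) (q1 : W1 →* Γ)
    (hφ : Function.Surjective φ) (hψ : Function.Surjective ψ)
    (hq : ∀ z, q (φ z) = q1 (ψ z)) (hinj : ∀ z, φ z = 1 → ψ z = 1 → z = 1)
    (h : CompIn S q.ker) (h1 : CompIn S q1.ker) :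
    CompIn S (q.comp φ).ker ∧ CompIn S φ.ker := by
  have h2 : CompIn S φ.ker := by
    have hmem : ∀ z : φ.ker, ψ z.1 ∈ q1.ker := by
      intro z
      rw [MonoidHom.mem_ker, ← hq, (MonoidHom.mem_ker).1 z.2, map_one]
    refine Pool.Agent.Y419.DC.sub hiso hsim h1 φ.ker
      ((ψ.comp φ.ker.subtype).codRestrict q1.ker hmem) ?_ ?_
    · rw [injective_iff_map_eq_one]
      rintro ⟨a, ha⟩ h
      refine Subtype.ext (hinj a ha ?_)
      exact congrArg (fun z : q1.ker => (z : W1)) h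
    · constructor
      rintro _ ⟨z, rfl⟩ ⟨w, hw⟩
      obtain ⟨v, rfl⟩ := hψ w
      have hz := (MonoidHom.mem_ker).1 z.2
      refine ⟨⟨v * z.1 * v⁻¹, ?_⟩, ?_⟩
      · rw [MonoidHom.mem_ker, map_mul, map_mul, hz, mul_one, ← map_mul, mul_inv_cancel, map_one]
      · apply Subtype.ext
        change ψ (v * z.1 * v⁻¹) = ψ v * ψ z.1 * (ψ v)⁻¹
        rw [map_mul, map_mul, map_inv]
  exact ⟨compIn_comp hiso hsim φ q hφ h h2, h2⟩

end

section main

variable (S : ∀ (T : Type) [Group T], Prop) {G : Type} [Group G] [TopologicalSpace G]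
  {Γ : Type} [Group Γ] (g : G →* Γ)

/-- `f` is a layer over `g`: a finite quotient of `G` above `Γ` for which the kernel of `W → Γ` has
composition factors in `S`. -/
def Layer {W : Type} [Group W] (f : G →* W) (q : W →* Γ) : Prop :=
  Function.Surjective f ∧ IsOpen (f.ker : Set G) ∧ (∀ x, q (f x) = g x) ∧ CompIn S q.ker

/-- The intersection of the kernels of all layers. -/
def Rad : Subgroup G where
  carrier := {x | ∀ (W : Type) [Group W] [Finite W] (f : G →* W) (q : W →* Γ), Layer S g f q →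
    f x = 1}
  mul_mem' := by
    intro a b ha hb W _ _ f q h
    rw [map_mul, ha W f q h, hb W f q h, mul_one]
  one_mem' := fun W _ _ f q h => map_one f
  inv_mem' := by
    intro a ha W _ _ f q h
    rw [map_inv, ha W f q h, inv_one]

theorem mem_rad {x : G} : x ∈ Rad S g ↔ ∀ (W : Type) [Group W] [Finite W] (f : G →* W)
    (q : W →* Γ), Layer S g f q → f x = 1 := Iff.rfl

/-- Embedding problems for `G` with kernels with composition factors in `S` are solvable. -/
def Solves : Prop :=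
  ∀ (W W' : Type) [Group W] [Group W'] [Finite W'] (π : W' →* W), Function.Surjective π →
    CompIn S π.ker → ∀ f : G →* W, Function.Surjective f → IsOpen (f.ker : Set G) →
      ∃ f' : G →* W', Function.Surjective f' ∧ IsOpen (f'.ker : Set G) ∧ ∀ x, π (f' x) = f x

variable (γ : ℕ → Γ)

/-- A marked layer. -/
structure St where
  W : Type
  [gr : Group W]
  [fin : Finite W]
  f : G →* W
  q : W →* Γ
  a : ℕ → W
  lay : Layer S g f q
  mark : Marked a
  qa : ∀ i, q (a i) = γ i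

attribute [instance] St.gr St.fin

variable {S g γ}

/-- The marked layer `y` is above `x`. -/
def Le (x y : St S g γ) : Prop :=
  ∃ φ : y.W →* x.W, (∀ z, φ (y.f z) = x.f z) ∧ ∀ i, φ (y.a i) = x.a i

theorem Le.refl (x : St S g γ) : Le x x := ⟨MonoidHom.id _, fun _ => rfl, fun _ => rfl⟩

theorem Le.trans {x y z : St S g γ} (h : Le x y) (h' : Le y z) : Le x z := by
  obtain ⟨φ, h1, h2⟩ := h
  obtain ⟨ψ, h3, h4⟩ := h'
  refine ⟨φ.comp ψ, fun v => ?_, fun i => ?_⟩
  · rw [MonoidHom.comp_apply, h3, h1]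
  · rw [MonoidHom.comp_apply, h4, h2]

theorem Le.ker {x y : St S g γ} (h : Le x y) : y.f.ker ≤ x.f.ker := by
  obtain ⟨φ, h1, h2⟩ := h
  intro v hv
  rw [MonoidHom.mem_ker] at hv ⊢
  rw [← h1, hv, map_one]

theorem open_inf {A B : Type} [Group A] [Group B] [IsTopologicalGroup G] {f : G →* A}
    {f1 : G →* B} (h : IsOpen (f.ker : Set G)) (h1 : IsOpen (f1.ker : Set G)) :
    IsOpen ((f.ker ⊓ f1.ker : Subgroup G) : Set G) := by
  rw [Subgroup.coe_inf]
  exact h.inter h1

theorem stepA [IsTopologicalGroup G]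
    (hiso : ∀ (T T' : Type) [Group T] [Group T'], Nonempty (T ≃* T') → S T → S T')
    (hsim : ∀ (T : Type) [Group T], S T → IsSimpleGroup T) (x : St S g γ)
    {W : Type} [Group W] [Finite W] (f : G →* W) (q : W →* Γ) (h : Layer S g f q) :
    ∃ y : St S g γ, Le x y ∧ y.f.ker ≤ f.ker := by
  obtain ⟨h1, h2, h3, h4⟩ := h
  obtain ⟨x1, x2, x3, x4⟩ := x.lay
  set F : G →* x.W × W := x.f.prod f with hF
  let φ : F.range →* x.W := (MonoidHom.fst x.W W).comp F.range.subtype
  let ψ : F.range →* W := (MonoidHom.snd x.W W).comp F.range.subtype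
  have hφ : Function.Surjective φ := by
    intro w
    obtain ⟨z, rfl⟩ := x1 w
    exact ⟨⟨F z, ⟨z, rfl⟩⟩, rfl⟩
  have hψ : Function.Surjective ψ := by
    intro w
    obtain ⟨z, rfl⟩ := h1 w
    exact ⟨⟨F z, ⟨z, rfl⟩⟩, rfl⟩
  have hq : ∀ z, x.q (φ z) = q (ψ z) := by
    rintro ⟨_, z, rfl⟩
    change x.q (x.f z) = q (f z)
    rw [x3, h3]
  have hinj : ∀ z, φ z = 1 → ψ z = 1 → z = 1 := by
    intro z hz hz'
    exact Subtype.ext (Prod.ext hz hz')
  obtain ⟨c1, c2⟩ := sub_direct hiso hsim φ ψ x.q q hφ hψ hq hinj x4 h4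
  obtain ⟨a', ha', ha2⟩ := exists_marks φ hφ x.a x.mark
  have hker : F.rangeRestrict.ker = x.f.ker ⊓ f.ker := by
    rw [MonoidHom.ker_rangeRestrict]
    ext z
    rw [Subgroup.mem_inf, MonoidHom.mem_ker, MonoidHom.mem_ker, MonoidHom.mem_ker, hF,
      MonoidHom.prod_apply, Prod.mk_eq_one]
  refine ⟨⟨F.range, F.rangeRestrict, x.q.comp φ, a', ⟨F.rangeRestrict_surjective, ?_, ?_, c1⟩,
    ha', ?_⟩, ⟨φ, fun z => rfl, ha2⟩, ?_⟩
  · rw [hker]
    exact open_inf x2 h2
  · intro z
    exact x3 z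
  · intro i
    rw [MonoidHom.comp_apply, ha2]
    exact x.qa i
  · change F.rangeRestrict.ker ≤ f.ker
    rw [hker]
    exact inf_le_right

theorem stepB
    (hiso : ∀ (T T' : Type) [Group T] [Group T'], Nonempty (T ≃* T') → S T → S T')
    (hsim : ∀ (T : Type) [Group T], S T → IsSimpleGroup T) (hS : Solves S (G := G))
    (x : St S g γ) {B : Type} [Group B] [Finite B] (π : B →* Γ)
    (h : CompIn S π.ker) (b : ℕ → B) (hb : Marked b)
    (hbγ : ∀ i, π (b i) = γ i) :
    ∃ y : St S g γ, Le x y ∧ ∃ h : y.W →* B, ∀ i, h (y.a i) = b i := by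
  obtain ⟨x1, x2, x3, x4⟩ := x.lay
  set P : Subgroup (x.W × B) := Subgroup.closure (Set.range fun i => (x.a i, b i)) with hP
  let φ : P →* x.W := (MonoidHom.fst x.W B).comp P.subtype
  let ψ : P →* B := (MonoidHom.snd x.W B).comp P.subtype
  have hφ : Function.Surjective φ := by
    rw [← MonoidHom.range_eq_top, MonoidHom.range_comp, Subgroup.range_subtype, hP,
      MonoidHom.map_closure, ← Set.range_comp]
    exact x.mark.2
  have hψ : Function.Surjective ψ := by
    rw [← MonoidHom.range_eq_top, MonoidHom.range_comp, Subgroup.range_subtype, hP,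
      MonoidHom.map_closure, ← Set.range_comp]
    exact hb.2
  have hq : ∀ z, x.q (φ z) = π (ψ z) := by
    have hle : P ≤ (x.q.comp (MonoidHom.fst x.W B)).eqLocus (π.comp (MonoidHom.snd x.W B)) := by
      rw [hP, Subgroup.closure_le]
      rintro _ ⟨i, rfl⟩
      change x.q (x.a i) = π (b i)
      rw [x.qa, hbγ]
    intro z
    exact hle z.2
  have hinj : ∀ z, φ z = 1 → ψ z = 1 → z = 1 := by
    intro z hz hz'
    exact Subtype.ext (Prod.ext hz hz')
  obtain ⟨c1, c2⟩ := sub_direct hiso hsim φ ψ x.q π hφ hψ hq hinj x4 h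
  obtain ⟨f', f1, f2, f3⟩ := hS x.W P φ hφ c2 x.f x1 x2
  refine ⟨⟨P, f', x.q.comp φ, fun i => ⟨(x.a i, b i), Subgroup.subset_closure ⟨i, rfl⟩⟩,
    ⟨f1, f2, ?_, c1⟩, ⟨?_, ?_⟩, ?_⟩, ⟨φ, f3, fun i => rfl⟩, ψ, fun i => rfl⟩
  · intro z
    rw [MonoidHom.comp_apply, f3, x3]
  · obtain ⟨m, hm⟩ := x.mark.1
    obtain ⟨m', hm'⟩ := hb.1
    refine ⟨max m m', fun i hi => ?_⟩
    apply Subtype.ext
    change (x.a i, b i) = 1
    rw [hm i (le_trans (le_max_left _ _) hi), hm' i (le_trans (le_max_right _ _) hi)]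
    rfl
  · have h5 : (Set.range fun i => (⟨(x.a i, b i), Subgroup.subset_closure ⟨i, rfl⟩⟩ : P)) =
        ((↑) : P → x.W × B) ⁻¹' (Set.range fun i => (x.a i, b i)) := by
      ext ⟨z, hz⟩
      constructor
      · rintro ⟨i, hi⟩
        exact ⟨i, congrArg Subtype.val hi⟩
      · rintro ⟨i, hi⟩
        exact ⟨i, Subtype.ext hi⟩
    rw [h5]
    exact Subgroup.closure_closure_coe_preimage
  · intro i
    exact x.qa i

end main

end Pool.Agent.L7h25.FP
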