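import Mathlib
import Pool.Agent.L7h25.FP.Abs

/-!
The limit: free quotients.
-/

set_option autoImplicit false

namespace Pool.Agent.L7h25.FP

open Pool.Agent.Y60.DC

section main

variable {S : ∀ (T : Type) [Group T], Prop} {G : Type} [Group G] [TopologicalSpace G]
  {Γ : Type} [Group Γ] {g : G →* Γ} {γ : ℕ → Γ}

/-- The codes of the marked groups over `Γ`. -/
abbrev Code (Γ : Type) : Type := Σ n : ℕ, (Fin n → Fin n → Fin n) × (Fin n → Γ) × List (Fin n)

/-- `B` has the code `t`. -/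
def HasCode (S : ∀ (T : Type) [Group T], Prop) (γ : ℕ → Γ) (t : Code Γ) (B : Type) [Group B]
    (e : B ≃ Fin t.1) (π : B →* Γ) (b : ℕ → B) : Prop :=
  (∀ u v, e (u * v) = t.2.1 (e u) (e v)) ∧ CompIn S π.ker ∧ (∀ u, t.2.2.1 (e u) = π u) ∧
  Marked b ∧ (∀ i, π (b i) = γ i) ∧ ∀ i, b i = (t.2.2.2[i]?).elim 1 e.symm

/-- The tasks. -/
def Done (t : {M : Subgroup G // IsOpen (M : Set G)} ⊕ Code Γ) (y : St S g γ) : Prop :=
  Sum.elim (fun M => ∀ (W : Type) [Group W] [Finite W] (f : G →* W) (q : W →* Γ),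
      Layer S g f q → f.ker = M.1 → y.f.ker ≤ M.1)
    (fun t => ∀ (B : Type) [Group B] [Finite B] (e : B ≃ Fin t.1) (π : B →* Γ) (b : ℕ → B),
      HasCode S γ t B e π b → ∃ h : y.W →* B, ∀ i, h (y.a i) = b i) t

theorem step [IsTopologicalGroup G]
    (hiso : ∀ (T T' : Type) [Group T] [Group T'], Nonempty (T ≃* T') → S T → S T')
    (hsim : ∀ (T : Type) [Group T], S T → IsSimpleGroup T) (hS : Solves S (G := G))
    (x : St S g γ) (t : {M : Subgroup G // IsOpen (M : Set G)} ⊕ Code Γ) :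
    ∃ y : St S g γ, Le x y ∧ Done t y := by
  classical
  rcases t with M | t
  · by_cases h : ∃ (W : Type) (_ : Group W) (_ : Finite W) (f : G →* W) (q : W →* Γ),
      Layer S g f q ∧ f.ker = M.1
    · obtain ⟨W, _, _, f, q, h1, h2⟩ := h
      obtain ⟨y, hy, hy'⟩ := stepA hiso hsim x f q h1
      refine ⟨y, hy, ?_⟩
      intro W' _ _ f' q' _ _
      rw [← h2]
      exact hy'
    · refine ⟨x, Le.refl x, ?_⟩
      intro W' _ _ f' q' h1 h2
      exact absurd ⟨W', _, inferInstance, f', q', h1, h2⟩ h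
  · by_cases h : ∃ (B : Type) (_ : Group B) (_ : Finite B) (e : B ≃ Fin t.1) (π : B →* Γ)
      (b : ℕ → B), HasCode S γ t B e π b
    · obtain ⟨B, _, _, e, π, b, h1⟩ := h
      obtain ⟨y, hy, h₀, hh⟩ := stepB hiso hsim hS x π h1.2.1 b h1.2.2.2.1 h1.2.2.2.2.1
      refine ⟨y, hy, ?_⟩
      intro B' _ _ e' π' b' h2
      let ι : B ≃* B' :=
        { toEquiv := e.trans e'.symm
          map_mul' := by
            intro u v
            change e'.symm (e (u * v)) = e'.symm (e u) * e'.symm (e v)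
            apply e'.injective
            rw [h1.1, h2.1, e'.apply_symm_apply, e'.apply_symm_apply, e'.apply_symm_apply] }
      have hι : ∀ u, ι u = e'.symm (e u) := fun u => rfl
      refine ⟨ι.toMonoidHom.comp h₀, fun i => ?_⟩
      change ι (h₀ (y.a i)) = b' i
      rw [hh, h1.2.2.2.2.2, h2.2.2.2.2.2]
      cases t.2.2.2[i]? with
      | none => exact map_one ι
      | some j =>
        change ι (e.symm j) = e'.symm j
        rw [hι, e.apply_symm_apply]
    · refine ⟨x, Le.refl x, ?_⟩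
      intro B' _ _ e' π' b' h2
      exact absurd ⟨B', _, inferInstance, e', π', b', h2⟩ h

theorem exists_code (S : ∀ (T : Type) [Group T], Prop) (γ : ℕ → Γ) (B : Type) [Group B] [Finite B]
    (π : B →* Γ) (hπ : CompIn S π.ker) (b : ℕ → B) (hb : Marked b)
    (hbγ : ∀ i, π (b i) = γ i) : ∃ (t : Code Γ) (e : B ≃ Fin t.1), HasCode S γ t B e π b := by
  classical
  obtain ⟨n, ⟨e⟩⟩ := Finite.exists_equiv_fin B
  obtain ⟨m, hm⟩ := hb.1
  refine ⟨⟨n, fun i j => e (e.symm i * e.symm j), fun i => π (e.symm i),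
    (List.range m).map fun i => e (b i)⟩, e, ?_, hπ, ?_, hb, hbγ, ?_⟩
  · intro u v
    change e (u * v) = e (e.symm (e u) * e.symm (e v))
    rw [e.symm_apply_apply, e.symm_apply_apply]
  · intro u
    change π (e.symm (e u)) = π u
    rw [e.symm_apply_apply]
  · intro i
    change b i = (((List.range m).map fun i => e (b i))[i]?).elim 1 e.symm
    by_cases hi : i < m
    · have h1 : ((List.range m).map fun i => e (b i))[i]? = some (e (b i)) := by
        rw [List.getElem?_map, List.getElem?_range hi]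
        rfl
      rw [h1]
      change b i = e.symm (e (b i))
      rw [e.symm_apply_apply]
    · have h1 : ((List.range m).map fun i => e (b i))[i]? = none := by
        rw [List.getElem?_eq_none_iff, List.length_map, List.length_range]
        exact not_lt.1 hi
      rw [h1]
      exact hm i (not_lt.1 hi)

/-- The limit of a sequence of marked layers. -/
theorem exists_limit [IsTopologicalGroup G] [CompactSpace G] (x : ℕ → St S g γ)
    (hx : ∀ n, Le (x n) (x (n + 1))) :
    (∃ σ : ℕ → G, ∀ n i, (x n).f (σ i) = (x n).a i) ∧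
    ∀ V : Set G, IsOpen V → (∀ z, (∀ n, (x n).f z = 1) → z ∈ V) →
      ∃ n, ((x n).f.ker : Set G) ⊆ V := by
  classical
  constructor
  · have hcl : ∀ n i, IsClosed {z : G | (x n).f z = (x n).a i} := by
      intro n i
      obtain ⟨z₀, hz₀⟩ := (x n).lay.1 ((x n).a i)
      have h1 : {z : G | (x n).f z = (x n).a i} =
          (fun z => z₀⁻¹ * z) ⁻¹' ((x n).f.ker : Set G) := by
        ext z
        rw [Set.mem_preimage, SetLike.mem_coe, MonoidHom.mem_ker, map_mul, map_inv, hz₀,
          inv_mul_eq_one]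
        exact eq_comm
      rw [h1]
      exact (Subgroup.isClosed_of_isOpen _ (x n).lay.2.1).preimage (continuous_const_mul _)
    have hex : ∀ i, ∃ z : G, ∀ n, (x n).f z = (x n).a i := by
      intro i
      obtain ⟨z, hz⟩ := IsCompact.nonempty_iInter_of_sequence_nonempty_isCompact_isClosed
        (fun n => {z : G | (x n).f z = (x n).a i})
        (fun n z hz => by
          obtain ⟨φ, h1, h2⟩ := hx n
          change (x n).f z = (x n).a i
          change (x (n + 1)).f z = (x (n + 1)).a i at hz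
          rw [← h1, hz, h2])
        (fun n => (x n).lay.1 _) (hcl 0 i).isCompact (fun n => hcl n i)
      rw [Set.mem_iInter] at hz
      exact ⟨z, hz⟩
    choose σ hσ using hex
    exact ⟨σ, fun n i => hσ i n⟩
  · intro V hV hz
    by_contra hcon
    push Not at hcon
    have hcl : ∀ n, IsClosed (((x n).f.ker : Set G) ∩ Vᶜ) := fun n =>
      (Subgroup.isClosed_of_isOpen _ (x n).lay.2.1).inter hV.isClosed_compl
    obtain ⟨z, hz'⟩ := IsCompact.nonempty_iInter_of_sequence_nonempty_isCompact_isClosed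
      (fun n => ((x n).f.ker : Set G) ∩ Vᶜ)
      (fun n => Set.inter_subset_inter_left _ (hx n).ker)
      (fun n => by
        obtain ⟨z, hz1, hz2⟩ := Set.not_subset.1 (hcon n)
        exact ⟨z, hz1, hz2⟩) (hcl 0).isCompact hcl
    rw [Set.mem_iInter] at hz'
    exact (hz' 0).2 (hz z fun n => (hz' n).1)

/-- The free quotient. -/
theorem exists_free [IsTopologicalGroup G] [CompactSpace G]
    (hc : Countable {M : Subgroup G // IsOpen (M : Set G)})
    (hiso : ∀ (T T' : Type) [Group T] [Group T'], Nonempty (T ≃* T') → S T → S T')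
    (hsim : ∀ (T : Type) [Group T], S T → IsSimpleGroup T) (hS : Solves S (G := G))
    [Finite Γ] (hg : Function.Surjective g) (hgo : IsOpen (g.ker : Set G)) (hγ : Marked γ) :
    ∃ σ : ℕ → G, (∀ i, g (σ i) = γ i) ∧
      (∀ V : Subgroup G, IsOpen (V : Set G) → Rad S g ≤ V →
        (∃ m, ∀ i, m ≤ i → σ i ∈ V) ∧ Subgroup.closure (Set.range σ) ⊔ V = ⊤ ∧
        ∃ (W : Type) (_ : Group W) (_ : Finite W) (f : G →* W) (q : W →* Γ),
          Layer S g f q ∧ f.ker ≤ V) ∧
      ∀ (B : Type) [Group B] [Finite B] (π : B →* Γ), CompIn S π.ker → ∀ b : ℕ → B,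
        Marked b → (∀ i, π (b i) = γ i) → ∃ h : G →* B, IsOpen (h.ker : Set G) ∧
          Rad S g ≤ h.ker ∧ (∀ i, h (σ i) = b i) ∧ ∀ z, π (h z) = g z := by
  classical
  have hk : CompIn S (MonoidHom.id Γ).ker := by
    refine CompIn.one _ ⟨fun a b => ?_⟩
    have ha := (MonoidHom.mem_ker).1 a.2
    have hb := (MonoidHom.mem_ker).1 b.2
    exact Subtype.ext (ha.trans hb.symm)
  let x₀ : St S g γ := ⟨Γ, g, MonoidHom.id Γ, γ, ⟨hg, hgo, fun _ => rfl, hk⟩, hγ, fun _ => rfl⟩
  have hne : Nonempty ({M : Subgroup G // IsOpen (M : Set G)} ⊕ Code Γ) :=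
    ⟨Sum.inl ⟨g.ker, hgo⟩⟩
  obtain ⟨x, hx0, hx1, hx2⟩ := iterate Le (Done (S := S) (g := g) (γ := γ))
    (step hiso hsim hS) x₀
  obtain ⟨⟨σ, hσ⟩, hV⟩ := exists_limit x hx1
  have hle : ∀ n m, Le (x n) (x (n + m)) := by
    intro n m
    induction m with
    | zero => exact Le.refl _
    | succ m ih => exact ih.trans (hx1 _)
  have hrad : ∀ z, (∀ n, (x n).f z = 1) → z ∈ Rad S g := by
    intro z hz W _ _ f q hl
    obtain ⟨n, hn⟩ := hx2 (Sum.inl ⟨f.ker, hl.2.1⟩)
    exact hn W f q hl rfl (hz n)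
  have hradn : ∀ n, Rad S g ≤ (x n).f.ker := by
    intro n z hz
    exact hz (x n).W (x n).f (x n).q (x n).lay
  have hσg : ∀ i, g (σ i) = γ i := by
    intro i
    have h1 := hσ 0 i
    rw [← (x 0).lay.2.2.1, h1, (x 0).qa]
  have hdense : ∀ V : Subgroup G, IsOpen (V : Set G) → Rad S g ≤ V →
      (∃ m, ∀ i, m ≤ i → σ i ∈ V) ∧ Subgroup.closure (Set.range σ) ⊔ V = ⊤ ∧
        ∃ (W : Type) (_ : Group W) (_ : Finite W) (f : G →* W) (q : W →* Γ),
          Layer S g f q ∧ f.ker ≤ V := by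
    intro V hVo hVR
    obtain ⟨n, hn⟩ := hV V hVo fun z hz => hVR (hrad z hz)
    refine ⟨?_, ?_, (x n).W, inferInstance, inferInstance, (x n).f, (x n).q, (x n).lay, hn⟩
    · obtain ⟨m, hm⟩ := (x n).mark.1
      refine ⟨m, fun i hi => hn ?_⟩
      rw [SetLike.mem_coe, MonoidHom.mem_ker, hσ, hm i hi]
    · rw [eq_top_iff]
      intro z _
      have h1 : (x n).f z ∈ (Subgroup.closure (Set.range σ)).map (x n).f := by
        rw [MonoidHom.map_closure, ← Set.range_comp]
        have h2 : (x n).f ∘ σ = (x n).a := funext (hσ n)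
        rw [h2, (x n).mark.2]
        trivial
      obtain ⟨w, hw, hwz⟩ := h1
      have h3 : w⁻¹ * z ∈ V := by
        apply hn
        rw [SetLike.mem_coe, MonoidHom.mem_ker, map_mul, map_inv, hwz, inv_mul_cancel]
      have h4 := Subgroup.mul_mem_sup hw h3
      rwa [mul_inv_cancel_left] at h4
  refine ⟨σ, hσg, hdense, ?_⟩
  intro B _ _ π hπ b hb hbγ
  obtain ⟨t, e, ht⟩ := exists_code S γ B π hπ b hb hbγ
  obtain ⟨n, hn⟩ := hx2 (Sum.inr t)
  obtain ⟨h, hh⟩ := hn B e π b ht
  have h1 : (x n).f.ker ≤ (h.comp (x n).f).ker := by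
    intro z hz
    rw [MonoidHom.mem_ker, MonoidHom.comp_apply, (MonoidHom.mem_ker).1 hz, map_one]
  have h2 : ∀ i, (h.comp (x n).f) (σ i) = b i := fun i => by
    rw [MonoidHom.comp_apply, hσ, hh]
  refine ⟨h.comp (x n).f, Subgroup.isOpen_mono h1 (x n).lay.2.1, (hradn n).trans h1, h2, ?_⟩
  -- compatibility with `g`
  have h3 : ∀ w : (x n).W, π (h w) = (x n).q w := by
    have h4 : (⊤ : Subgroup (x n).W) ≤ (π.comp h).eqLocus (x n).q := by
      rw [← (x n).mark.2, Subgroup.closure_le]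
      rintro _ ⟨i, rfl⟩
      change π (h ((x n).a i)) = (x n).q ((x n).a i)
      rw [hh, hbγ, (x n).qa]
    intro w
    exact h4 (Subgroup.mem_top w)
  intro z
  rw [MonoidHom.comp_apply, h3, (x n).lay.2.2.1]

end main

end Pool.Agent.L7h25.FP
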