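import Mathlib
import Pool.Agent.L7h25.FP.Lim

/-!
Two profinite groups with solvable embedding problems: back and forth.
-/

set_option autoImplicit false

namespace Pool.Agent.L7h25.FP

open Pool.Agent.Y60.DC

section

variable (S : ∀ (T : Type) [Group T], Prop) {G G' : Type} [Group G] [TopologicalSpace G]
  [Group G'] [TopologicalSpace G'] {Γ : Type} [Group Γ] (g : G →* Γ) (g' : G' →* Γ)

/-- A common layer of `G` and `G'`. -/
structure Bi where
  W : Type
  [gr : Group W]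
  [fin : Finite W]
  f : G →* W
  f' : G' →* W
  q : W →* Γ
  lay : Layer S g f q
  lay' : Layer S g' f' q

attribute [instance] Bi.gr Bi.fin

variable {S g g'}

/-- The common layer `y` is above `x`. -/
def BLe (x y : Bi S g g') : Prop :=
  ∃ φ : y.W →* x.W, (∀ z, φ (y.f z) = x.f z) ∧ ∀ z, φ (y.f' z) = x.f' z

theorem BLe.refl (x : Bi S g g') : BLe x x := ⟨MonoidHom.id _, fun _ => rfl, fun _ => rfl⟩

theorem stepL [IsTopologicalGroup G]
    (hiso : ∀ (T T' : Type) [Group T] [Group T'], Nonempty (T ≃* T') → S T → S T')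
    (hsim : ∀ (T : Type) [Group T], S T → IsSimpleGroup T) (hS' : Solves S (G := G'))
    (x : Bi S g g') {W : Type} [Group W] [Finite W] (f : G →* W) (q : W →* Γ)
    (h : Layer S g f q) : ∃ y : Bi S g g', BLe x y ∧ y.f.ker ≤ f.ker := by
  obtain ⟨h1, h2, h3, h4⟩ := h
  obtain ⟨x1, x2, x3, x4⟩ := x.lay
  obtain ⟨y1, y2, y3, y4⟩ := x.lay'
  set F : G →* x.W × W := x.f.prod f with hF
  let φ : F.range →* x.W := (MonoidHom.fst x.W W).comp F.range.subtype
  let ψ : F.range →* W := (MonoidHom.snd x.W W).comp F.range.subtype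
  have hφ : Function.Surjective φ := by
    intro w
    obtain ⟨z, rfl⟩ := x1 w
    exact ⟨⟨F z, ⟨z, rfl⟩⟩, rfl⟩
  have hψ : Function.Surjective ψ := by
    intro w
    obtain ⟨z, rfl⟩ := h1 w
    exact ⟨⟨F z, ⟨z, rfl⟩⟩, rfl⟩
  have hq : ∀ z, x.q (φ z) = q (ψ z) := by
    rintro ⟨_, z, rfl⟩
    change x.q (x.f z) = q (f z)
    rw [x3, h3]
  have hinj : ∀ z, φ z = 1 → ψ z = 1 → z = 1 := by
    intro z hz hz'
    exact Subtype.ext (Prod.ext hz hz')
  obtain ⟨c1, c2⟩ := sub_direct hiso hsim φ ψ x.q q hφ hψ hq hinj x4 h4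
  obtain ⟨f', g1, g2, g3⟩ := hS' x.W F.range φ hφ c2 x.f' y1 y2
  have hker : F.rangeRestrict.ker = x.f.ker ⊓ f.ker := by
    rw [MonoidHom.ker_rangeRestrict]
    ext z
    rw [Subgroup.mem_inf, MonoidHom.mem_ker, MonoidHom.mem_ker, MonoidHom.mem_ker, hF,
      MonoidHom.prod_apply, Prod.mk_eq_one]
  refine ⟨⟨F.range, F.rangeRestrict, f', x.q.comp φ, ⟨F.rangeRestrict_surjective, ?_, ?_, c1⟩,
    ⟨g1, g2, ?_, c1⟩⟩, ⟨φ, fun z => rfl, g3⟩, ?_⟩
  · rw [hker]
    exact open_inf x2 h2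
  · intro z
    exact x3 z
  · intro z
    rw [MonoidHom.comp_apply, g3, y3]
  · change F.rangeRestrict.ker ≤ f.ker
    rw [hker]
    exact inf_le_right

/-- Exchange of `G` and `G'`. -/
def Bi.swap (x : Bi S g g') : Bi S g' g := ⟨x.W, x.f', x.f, x.q, x.lay', x.lay⟩

theorem stepR [IsTopologicalGroup G']
    (hiso : ∀ (T T' : Type) [Group T] [Group T'], Nonempty (T ≃* T') → S T → S T')
    (hsim : ∀ (T : Type) [Group T], S T → IsSimpleGroup T) (hS : Solves S (G := G))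
    (x : Bi S g g') {W : Type} [Group W] [Finite W] (f : G' →* W) (q : W →* Γ)
    (h : Layer S g' f q) : ∃ y : Bi S g g', BLe x y ∧ y.f'.ker ≤ f.ker := by
  obtain ⟨y, ⟨φ, h1, h2⟩, h3⟩ := stepL hiso hsim hS x.swap f q h
  exact ⟨y.swap, ⟨φ, h2, h1⟩, h3⟩

/-- The tasks. -/
def BDone (t : {M : Subgroup G // IsOpen (M : Set G)} ⊕ {M : Subgroup G' // IsOpen (M : Set G')})
    (y : Bi S g g') : Prop :=
  Sum.elim (fun M => ∀ (W : Type) [Group W] [Finite W] (f : G →* W) (q : W →* Γ),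
      Layer S g f q → f.ker = M.1 → y.f.ker ≤ M.1)
    (fun M => ∀ (W : Type) [Group W] [Finite W] (f : G' →* W) (q : W →* Γ),
      Layer S g' f q → f.ker = M.1 → y.f'.ker ≤ M.1) t

theorem bstep [IsTopologicalGroup G] [IsTopologicalGroup G']
    (hiso : ∀ (T T' : Type) [Group T] [Group T'], Nonempty (T ≃* T') → S T → S T')
    (hsim : ∀ (T : Type) [Group T], S T → IsSimpleGroup T) (hS : Solves S (G := G))
    (hS' : Solves S (G := G')) (x : Bi S g g')
    (t : {M : Subgroup G // IsOpen (M : Set G)} ⊕ {M : Subgroup G' // IsOpen (M : Set G')}) :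
    ∃ y : Bi S g g', BLe x y ∧ BDone t y := by
  classical
  rcases t with M | M
  · by_cases h : ∃ (W : Type) (_ : Group W) (_ : Finite W) (f : G →* W) (q : W →* Γ),
      Layer S g f q ∧ f.ker = M.1
    · obtain ⟨W, _, _, f, q, h1, h2⟩ := h
      obtain ⟨y, hy, hy'⟩ := stepL hiso hsim hS' x f q h1
      refine ⟨y, hy, ?_⟩
      intro W' _ _ f' q' _ _
      rw [← h2]
      exact hy'
    · refine ⟨x, BLe.refl x, ?_⟩
      intro W' _ _ f' q' h1 h2
      exact absurd ⟨W', _, inferInstance, f', q', h1, h2⟩ h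
  · by_cases h : ∃ (W : Type) (_ : Group W) (_ : Finite W) (f : G' →* W) (q : W →* Γ),
      Layer S g' f q ∧ f.ker = M.1
    · obtain ⟨W, _, _, f, q, h1, h2⟩ := h
      obtain ⟨y, hy, hy'⟩ := stepR hiso hsim hS x f q h1
      refine ⟨y, hy, ?_⟩
      intro W' _ _ f' q' _ _
      rw [← h2]
      exact hy'
    · refine ⟨x, BLe.refl x, ?_⟩
      intro W' _ _ f' q' h1 h2
      exact absurd ⟨W', _, inferInstance, f', q', h1, h2⟩ h

/-- A common sequence of layers. -/
theorem exists_common [IsTopologicalGroup G] [IsTopologicalGroup G']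
    (hc : Countable {M : Subgroup G // IsOpen (M : Set G)})
    (hc' : Countable {M : Subgroup G' // IsOpen (M : Set G')})
    (hiso : ∀ (T T' : Type) [Group T] [Group T'], Nonempty (T ≃* T') → S T → S T')
    (hsim : ∀ (T : Type) [Group T], S T → IsSimpleGroup T) (hS : Solves S (G := G))
    (hS' : Solves S (G := G')) [Finite Γ] (hg : Function.Surjective g)
    (hgo : IsOpen (g.ker : Set G)) (hg' : Function.Surjective g')
    (hgo' : IsOpen (g'.ker : Set G')) :
    ∃ (W : ℕ → Type) (_ : ∀ n, Group (W n)) (p : ∀ n, W (n + 1) →* W n) (f : ∀ n, G →* W n)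
      (f' : ∀ n, G' →* W n) (q : ∀ n, W n →* Γ), (∀ n, Layer S g (f n) (q n)) ∧
      (∀ n, Layer S g' (f' n) (q n)) ∧ (∀ n z, p n (f (n + 1) z) = f n z) ∧
      (∀ n z, p n (f' (n + 1) z) = f' n z) ∧ (∀ z, (∀ n, f n z = 1) ↔ z ∈ Rad S g) ∧
      ∀ z, (∀ n, f' n z = 1) ↔ z ∈ Rad S g' := by
  classical
  have hk : CompIn S (MonoidHom.id Γ).ker := by
    refine CompIn.one _ ⟨fun a b => ?_⟩
    have ha := (MonoidHom.mem_ker).1 a.2
    have hb := (MonoidHom.mem_ker).1 b.2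
    exact Subtype.ext (ha.trans hb.symm)
  let x₀ : Bi S g g' := ⟨Γ, g, g', MonoidHom.id Γ, ⟨hg, hgo, fun _ => rfl, hk⟩,
    ⟨hg', hgo', fun _ => rfl, hk⟩⟩
  have hne : Nonempty ({M : Subgroup G // IsOpen (M : Set G)} ⊕
      {M : Subgroup G' // IsOpen (M : Set G')}) := ⟨Sum.inl ⟨g.ker, hgo⟩⟩
  obtain ⟨x, hx0, hx1, hx2⟩ := iterate BLe (BDone (S := S) (g := g) (g' := g'))
    (bstep hiso hsim hS hS') x₀
  choose φ hφ hφ' using hx1
  refine ⟨fun n => (x n).W, fun n => inferInstance, φ, fun n => (x n).f, fun n => (x n).f',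
    fun n => (x n).q, fun n => (x n).lay, fun n => (x n).lay', hφ, hφ', fun z => ⟨?_, ?_⟩,
    fun z => ⟨?_, ?_⟩⟩
  · intro hz W _ _ f q hl
    obtain ⟨n, hn⟩ := hx2 (Sum.inl ⟨f.ker, hl.2.1⟩)
    exact hn W f q hl rfl (hz n)
  · intro hz n
    exact hz (x n).W (x n).f (x n).q (x n).lay
  · intro hz W _ _ f q hl
    obtain ⟨n, hn⟩ := hx2 (Sum.inr ⟨f.ker, hl.2.1⟩)
    exact hn W f q hl rfl (hz n)
  · intro hz n
    exact hz (x n).W (x n).f' (x n).q (x n).lay'

end

/-- Continuity. -/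
theorem cont_of_lim {P P' : Type} [Group P] [TopologicalSpace P] [IsTopologicalGroup P]
    [Group P'] [TopologicalSpace P'] [IsTopologicalGroup P'] [CompactSpace P'] {W : ℕ → Type}
    [∀ n, Group (W n)] (p : ∀ n, W (n + 1) →* W n) (a : ∀ n, P →* W n) (a' : ∀ n, P' →* W n)
    (ha : ∀ n, IsOpen ((a n).ker : Set P)) (ha' : ∀ n, IsOpen ((a' n).ker : Set P'))
    (hp' : ∀ n z, p n (a' (n + 1) z) = a' n z) (hinj : ∀ z, (∀ n, a' n z = 1) → z = 1)
    (Φ : P →* P') (hΦ : ∀ n z, a' n (Φ z) = a n z) : Continuous Φ := by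
  refine continuous_of_continuousAt_one Φ ?_
  intro V hV
  rw [map_one] at hV
  obtain ⟨U, hUV, hUo, hU1⟩ := mem_nhds_iff.1 hV
  have h1 : ∃ n, ((a' n).ker : Set P') ⊆ U := by
    by_contra hcon
    push Not at hcon
    have hcl : ∀ n, IsClosed (((a' n).ker : Set P') ∩ Uᶜ) := fun n =>
      (Subgroup.isClosed_of_isOpen _ (ha' n)).inter hUo.isClosed_compl
    obtain ⟨z, hz⟩ := IsCompact.nonempty_iInter_of_sequence_nonempty_isCompact_isClosed
      (fun n => ((a' n).ker : Set P') ∩ Uᶜ)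
      (fun n => Set.inter_subset_inter_left _ (fun z hz => by
        rw [SetLike.mem_coe, MonoidHom.mem_ker] at hz ⊢
        rw [← hp', hz, map_one]))
      (fun n => by
        obtain ⟨z, hz1, hz2⟩ := Set.not_subset.1 (hcon n)
        exact ⟨z, hz1, hz2⟩) (hcl 0).isCompact hcl
    rw [Set.mem_iInter] at hz
    apply (hz 0).2
    rw [hinj z fun n => (hz n).1]
    exact hU1
  obtain ⟨n, hn⟩ := h1
  have h2 : ((a n).ker : Set P) ⊆ Φ ⁻¹' V := by
    intro z hz
    apply hUV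
    apply hn
    rw [SetLike.mem_coe, MonoidHom.mem_ker, hΦ]
    exact hz
  exact Filter.mem_map.2 (Filter.mem_of_superset ((ha n).mem_nhds (Subgroup.one_mem _)) h2)

end Pool.Agent.L7h25.FP
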