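import Mathlib
import Pool.Agent.L7h25.FP.Lim
import Pool.Agent.TH377.IG.TowInv

/-!
The Galois part: free Galois groups from the solvability of the embedding problems.
-/

set_option autoImplicit false

namespace Pool.Agent.L7h25.FP

open Pool.Agent.Y60.DC
open IntermediateField AlgEquiv

section

variable {S : ∀ (T : Type) [Group T], Prop} {K Ω : Type} [Field K] [Field Ω] [Algebra K Ω]

/-- A countable field has only countably many finite separable extensions in a given one. -/
theorem countable_open [IsGalois K Ω] [Countable K] :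
    Countable {M : Subgroup Gal(Ω/K) // IsOpen (M : Set Gal(Ω/K))} := by
  classical
  have hΩ : Countable Ω := by
    rw [← Cardinal.mk_le_aleph0_iff]
    exact (Algebra.IsAlgebraic.cardinalMk_le_max K Ω).trans
      (max_le (Cardinal.mk_le_aleph0_iff.2 inferInstance) le_rfl)
  have key : ∀ M : {M : Subgroup Gal(Ω/K) // IsOpen (M : Set Gal(Ω/K))},
      ∃ x : Ω, K⟮x⟯.fixingSubgroup = M.1 := by
    rintro ⟨M, hM⟩
    let H : ClosedSubgroup Gal(Ω/K) := ⟨M, Subgroup.isClosed_of_isOpen _ hM⟩
    have hfix : (fixedField H.1).fixingSubgroup = H.1 := InfiniteGalois.fixingSubgroup_fixedField H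
    have hfd : FiniteDimensional K (fixedField H.1) := by
      rw [← InfiniteGalois.isOpen_iff_finite, hfix]
      exact hM
    obtain ⟨a, ha⟩ := Field.exists_primitive_element K (fixedField H.1)
    refine ⟨(a : Ω), ?_⟩
    have h1 : K⟮(a : Ω)⟯ = fixedField H.1 := by
      have h2 := congrArg (IntermediateField.map (fixedField H.1).val) ha
      rw [IntermediateField.adjoin_map, Set.image_singleton] at h2
      have h3 : IntermediateField.map (fixedField H.1).val ⊤ = fixedField H.1 := by
        rw [← AlgHom.fieldRange_eq_map, IntermediateField.fieldRange_val]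
      rw [h3] at h2
      exact h2
    rw [h1]
    exact hfix
  choose c hc using key
  refine Function.Injective.countable (f := c) ?_
  intro M M' h
  apply Subtype.ext
  rw [← hc M, ← hc M', h]

/-- The layers. -/
theorem layer_of_isLayer [IsGalois K Ω] (L M : IntermediateField K Ω) [IsGalois K L]
    (h : IsLayer S L M) [Normal K M] [Finite (M ≃ₐ[K] M)] :
    ∃ q : (M ≃ₐ[K] M) →* (L ≃ₐ[K] L),
      Layer S (restrictNormalHom L : Gal(Ω/K) →* (L ≃ₐ[K] L)) (restrictNormalHom M) q := by
  classical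
  obtain ⟨h1, h2, h3, h4⟩ := h
  have hs := restrictNormalHom_surjective (F := K) (K₁ := M) Ω
  have hk : (restrictNormalHom (F := K) (K₁ := Ω) M).ker ≤
      (restrictNormalHom (F := K) (K₁ := Ω) L).ker := by
    rw [restrictNormalHom_ker, restrictNormalHom_ker]
    exact IntermediateField.fixingSubgroup_antitone h3
  let q := MonoidHom.liftOfSurjective (restrictNormalHom (F := K) (K₁ := Ω) M) hs
    ⟨restrictNormalHom L, hk⟩
  have hq : ∀ σ : Gal(Ω/K), q (restrictNormalHom M σ) = restrictNormalHom L σ := fun σ =>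
    MonoidHom.liftOfRightInverse_comp_apply _ _ _ ⟨restrictNormalHom L, hk⟩ σ
  refine ⟨q, hs, ?_, hq, ?_⟩
  · rw [restrictNormalHom_ker]
    exact M.fixingSubgroup_isOpen
  · have h5 : q.ker = relGal L M := by
      ext τ
      obtain ⟨σ, rfl⟩ := hs τ
      rw [MonoidHom.mem_ker, hq, ← MonoidHom.mem_ker, restrictNormalHom_ker,
        IntermediateField.mem_fixingSubgroup_iff]
      constructor
      · intro h6 x hx
        apply Subtype.ext
        have h7 := restrictNormal_commutes σ M x
        exact h7.trans (h6 _ hx)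
      · intro h6 x hx
        have h7 := restrictNormal_commutes σ M ⟨x, h3 hx⟩
        have h8 : restrictNormalHom M σ ⟨x, h3 hx⟩ = (⟨x, h3 hx⟩ : M) := h6 ⟨x, h3 hx⟩ hx
        have h9 : (σ.restrictNormal M) ⟨x, h3 hx⟩ = (⟨x, h3 hx⟩ : M) := h8
        rw [h9] at h7
        exact h7.symm
    rw [h5]
    exact h4

theorem isLayer_of_layer [IsGalois K Ω]
    (hiso : ∀ (T T' : Type) [Group T] [Group T'], Nonempty (T ≃* T') → S T → S T')
    (hsim : ∀ (T : Type) [Group T], S T → IsSimpleGroup T)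
    (L : IntermediateField K Ω) [IsGalois K L] {W : Type} [Group W] (f : Gal(Ω/K) →* W)
    (q : W →* (L ≃ₐ[K] L))
    (h : Layer S (restrictNormalHom L : Gal(Ω/K) →* (L ≃ₐ[K] L)) f q) :
    ∃ M : IntermediateField K Ω, IsLayer S L M ∧ M.fixingSubgroup = f.ker := by
  classical
  obtain ⟨h1, h2, h3, h4⟩ := h
  obtain ⟨M, hMf, hMg, ε, hε, hker⟩ := Pool.Agent.TH377.IG.exists_fix f h1 h2
  have hLM : L ≤ M := by
    rw [← InfiniteGalois.fixedField_fixingSubgroup L,
      ← InfiniteGalois.fixedField_fixingSubgroup M]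
    apply IntermediateField.fixedField_antitone
    rw [hker]
    intro σ hσ
    rw [MonoidHom.mem_ker] at hσ
    rw [← restrictNormalHom_ker, MonoidHom.mem_ker, ← h3, hσ, map_one]
  refine ⟨M, ⟨hMf, hMg, hLM, ?_⟩, hker⟩
  have hs := restrictNormalHom_surjective (F := K) (K₁ := M) Ω
  have h5 : ∀ τ : (M ≃ₐ[K] M), ε τ ∈ q.ker ↔ τ ∈ relGal L M := by
    intro τ
    obtain ⟨σ, rfl⟩ := hs τ
    rw [hε, MonoidHom.mem_ker, h3, ← MonoidHom.mem_ker, restrictNormalHom_ker,
      IntermediateField.mem_fixingSubgroup_iff]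
    constructor
    · intro h6 x hx
      apply Subtype.ext
      have h7 := restrictNormal_commutes σ M x
      exact h7.trans (h6 _ hx)
    · intro h6 x hx
      have h7 := restrictNormal_commutes σ M ⟨x, hLM hx⟩
      have h9 : (σ.restrictNormal M) ⟨x, hLM hx⟩ = (⟨x, hLM hx⟩ : M) := h6 ⟨x, hLM hx⟩ hx
      rw [h9] at h7
      exact h7.symm
  refine Pool.Agent.Y419.DC.quot hiso hsim h4 (relGal L M)
    ((ε.symm.toMonoidHom.comp q.ker.subtype).codRestrict (relGal L M) ?_) ?_
  · intro w
    rw [← h5]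
    change ε (ε.symm w.1) ∈ q.ker
    rw [ε.apply_symm_apply]
    exact w.2
  · rintro ⟨τ, hτ⟩
    refine ⟨⟨ε τ, (h5 τ).2 hτ⟩, ?_⟩
    apply Subtype.ext
    exact ε.symm_apply_apply τ

/-- The field of the free quotient. -/
theorem rad_eq [IsGalois K Ω]
    (hiso : ∀ (T T' : Type) [Group T] [Group T'], Nonempty (T ≃* T') → S T → S T')
    (hsim : ∀ (T : Type) [Group T], S T → IsSimpleGroup T)
    (L : IntermediateField K Ω) [IsGalois K L] :
    (maxExt S L).fixingSubgroup = Rad S (restrictNormalHom L : Gal(Ω/K) →* (L ≃ₐ[K] L)) := by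
  classical
  apply le_antisymm
  · intro σ hσ W _ _ f q hl
    obtain ⟨M, hM, hker⟩ := isLayer_of_layer hiso hsim L f q hl
    rw [← MonoidHom.mem_ker, ← hker]
    have h1 : M ≤ maxExt S L := le_sSup hM
    exact IntermediateField.fixingSubgroup_antitone h1 hσ
  · intro σ hσ
    have h1 : maxExt S L ≤ fixedField (Subgroup.zpowers σ) := by
      refine sSup_le ?_
      intro M hM
      obtain ⟨m1, m2, m3, m4⟩ := id hM
      have hfin : Finite (M ≃ₐ[K] M) := inferInstance
      obtain ⟨q, hq⟩ := layer_of_isLayer L M hM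
      have h2 := hσ _ _ q hq
      rw [← MonoidHom.mem_ker, restrictNormalHom_ker] at h2
      have h3 : Subgroup.zpowers σ ≤ M.fixingSubgroup := by
        rw [Subgroup.zpowers_le]
        exact h2
      exact (IntermediateField.le_iff_le _ _).2 h3
    have h4 := (IntermediateField.le_iff_le _ _).1 h1
    exact h4 (Subgroup.mem_zpowers σ)

theorem rad_normal {G : Type} [Group G] [TopologicalSpace G] {Γ : Type} [Group Γ] (g : G →* Γ) :
    (Rad S g).Normal := by
  constructor
  intro x hx c W _ _ f q hl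
  rw [map_mul, map_mul, hx W f q hl, mul_one, map_inv, mul_inv_cancel]

/-- The main theorem of the Galois part. -/
theorem isFree_of_solves [IsGalois K Ω] [Countable K]
    (hiso : ∀ (T T' : Type) [Group T] [Group T'], Nonempty (T ≃* T') → S T → S T')
    (hsim : ∀ (T : Type) [Group T], S T → IsSimpleGroup T)
    (hS : Solves S (G := Gal(Ω/K)))
    (L : IntermediateField K Ω) [FiniteDimensional K L] [IsGalois K L]
    (γ : ℕ → (L ≃ₐ[K] L)) (hγ : Marked γ) : IsFree S L (maxExt S L) γ := by
  classical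
  set g : Gal(Ω/K) →* (L ≃ₐ[K] L) := restrictNormalHom L with hg
  have hgs : Function.Surjective g := restrictNormalHom_surjective Ω
  have hgo : IsOpen (g.ker : Set Gal(Ω/K)) := by
    rw [hg, restrictNormalHom_ker]
    exact L.fixingSubgroup_isOpen
  obtain ⟨σ, s1, s2, s3⟩ := exists_free (S := S) (g := g) (γ := γ) countable_open hiso hsim hS
    hgs hgo hγ
  have hrad : (maxExt S L).fixingSubgroup = Rad S g := rad_eq hiso hsim L
  have hEg : IsGalois K (maxExt S L) := by
    rw [← InfiniteGalois.normal_iff_isGalois, hrad]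
    exact rad_normal g
  set E := maxExt S L with hE
  set r : Gal(Ω/K) →* (E ≃ₐ[K] E) := restrictNormalHom E with hr
  have hrs : Function.Surjective r := restrictNormalHom_surjective Ω
  have hrk : r.ker = Rad S g := by
    rw [hr, restrictNormalHom_ker, hrad]
  have hcont := InfiniteGalois.restrictNormalHom_continuous (k := K) (K := Ω) E
  have hquot := (hcont.isClosedMap).isQuotientMap hcont hrs
  have hLE : L ≤ E := by
    rw [← InfiniteGalois.fixedField_fixingSubgroup L,
      ← InfiniteGalois.fixedField_fixingSubgroup E]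
    apply IntermediateField.fixedField_antitone
    rw [hrad]
    intro τ hτ
    have hk : CompIn S (MonoidHom.id (L ≃ₐ[K] L)).ker := by
      refine CompIn.one _ ⟨fun a b => ?_⟩
      have ha := (MonoidHom.mem_ker).1 a.2
      have hb := (MonoidHom.mem_ker).1 b.2
      exact Subtype.ext (ha.trans hb.symm)
    have h1 := hτ (L ≃ₐ[K] L) g (MonoidHom.id _) ⟨hgs, hgo, fun _ => rfl, hk⟩
    rw [← restrictNormalHom_ker, MonoidHom.mem_ker]
    exact h1
  refine ⟨hEg, hLE, ?_, fun i => r (σ i), ?_, ?_, ?_⟩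
  · intro B _ h hh ho
    have ho2 : IsOpen ((h.comp r).ker : Set Gal(Ω/K)) := by
      have h5 : ((h.comp r).ker : Set Gal(Ω/K)) = r ⁻¹' (h.ker : Set (E ≃ₐ[K] E)) := by
        ext τ
        rw [Set.mem_preimage, SetLike.mem_coe, SetLike.mem_coe, MonoidHom.mem_ker,
          MonoidHom.mem_ker, MonoidHom.comp_apply]
      rw [h5]
      exact ho.preimage hcont
    have hR2 : Rad S g ≤ (h.comp r).ker := by
      rw [← hrk]
      intro τ hτ
      rw [MonoidHom.mem_ker, MonoidHom.comp_apply, (MonoidHom.mem_ker).1 hτ, map_one]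
    obtain ⟨W, _, _, f, q, hl, hfk⟩ := (s2 _ ho2 hR2).2.2
    obtain ⟨l1, l2, l3, l4⟩ := hl
    let h2 : W →* B := MonoidHom.liftOfSurjective f l1 ⟨h.comp r, hfk⟩
    have hh2 : ∀ τ, h2 (f τ) = h (r τ) := fun τ =>
      MonoidHom.liftOfRightInverse_comp_apply _ _ _ ⟨h.comp r, hfk⟩ τ
    have hrel : ∀ τ : Gal(Ω/K), r τ ∈ relGal L E ↔ g τ = 1 := by
      intro τ
      rw [← MonoidHom.mem_ker, hg, restrictNormalHom_ker,
        IntermediateField.mem_fixingSubgroup_iff]
      constructor
      · intro h6 x hx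
        have h7 := restrictNormal_commutes τ E ⟨x, hLE hx⟩
        have h9 : (τ.restrictNormal E) ⟨x, hLE hx⟩ = (⟨x, hLE hx⟩ : E) := h6 ⟨x, hLE hx⟩ hx
        rw [h9] at h7
        exact h7.symm
      · intro h6 x hx
        apply Subtype.ext
        have h7 := restrictNormal_commutes τ E x
        exact h7.trans (h6 _ hx)
    refine Pool.Agent.Y419.DC.quot hiso hsim l4 ((relGal L E).map h)
      ((h2.comp q.ker.subtype).codRestrict _ ?_) ?_
    · rintro ⟨w, hw⟩
      obtain ⟨τ, rfl⟩ := l1 w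
      rw [MonoidHom.mem_ker, l3] at hw
      exact ⟨r τ, (hrel τ).2 hw, (hh2 τ).symm⟩
    · rintro ⟨_, ρ, hρ, rfl⟩
      obtain ⟨τ, rfl⟩ := hrs ρ
      refine ⟨⟨f τ, ?_⟩, ?_⟩
      · rw [MonoidHom.mem_ker, l3]
        exact (hrel τ).1 hρ
      · exact Subtype.ext (hh2 τ)
  · rintro i x y hxy
    have h1 : ((r (σ i) x : E) : Ω) = σ i (x : Ω) := restrictNormal_commutes (σ i) E x
    have h2 : ((g (σ i) y : L) : Ω) = σ i (y : Ω) := restrictNormal_commutes (σ i) L y
    change ((r (σ i) x : E) : Ω) = _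
    rw [h1, ← s1, h2, hxy]
  · intro x
    have hfd : FiniteDimensional K K⟮(x : Ω)⟯ :=
      IntermediateField.adjoin.finiteDimensional (Algebra.IsIntegral.isIntegral (R := K) _)
    have ho : IsOpen ((K⟮(x : Ω)⟯.fixingSubgroup : Subgroup Gal(Ω/K)) : Set Gal(Ω/K)) :=
      K⟮(x : Ω)⟯.fixingSubgroup_isOpen
    have hle : Rad S g ≤ K⟮(x : Ω)⟯.fixingSubgroup := by
      rw [← hrad]
      apply IntermediateField.fixingSubgroup_antitone
      rw [IntermediateField.adjoin_simple_le_iff]
      exact x.2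
    obtain ⟨m, hm⟩ := (s2 _ ho hle).1
    refine ⟨m, fun i hi => ?_⟩
    apply Subtype.ext
    have h1 : ((r (σ i) x : E) : Ω) = σ i (x : Ω) := restrictNormal_commutes (σ i) E x
    rw [h1]
    exact (IntermediateField.mem_fixingSubgroup_iff _ _).1 (hm i hi) _
      (IntermediateField.mem_adjoin_simple_self K _)
  · intro B _ _ π hπ b hb hbγ
    obtain ⟨h, h1, h2, h3, h4⟩ := s3 B π hπ b hb hbγ
    have hle : r.ker ≤ h.ker := by
      rw [hrk]
      exact h2
    let h₀ : (E ≃ₐ[K] E) →* B := MonoidHom.liftOfSurjective r hrs ⟨h, hle⟩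
    have hh₀ : ∀ τ, h₀ (r τ) = h τ := fun τ =>
      MonoidHom.liftOfRightInverse_comp_apply _ _ _ ⟨h, hle⟩ τ
    refine ⟨h₀, ?_, fun i => ?_, ?_, ?_⟩
    · change IsOpen (h₀.ker : Set (E ≃ₐ[K] E))
      rw [← hquot.isOpen_preimage]
      have h5 : r ⁻¹' (h₀.ker : Set (E ≃ₐ[K] E)) = (h.ker : Set Gal(Ω/K)) := by
        ext τ
        rw [Set.mem_preimage, SetLike.mem_coe, SetLike.mem_coe, MonoidHom.mem_ker,
          MonoidHom.mem_ker, hh₀]
      rw [h5]
      exact h1
    · rw [hh₀, h3]
    · intro τ x y hxy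
      obtain ⟨τ, rfl⟩ := hrs τ
      have h5 : ((r τ x : E) : Ω) = τ (x : Ω) := restrictNormal_commutes τ E x
      have h6 : ((g τ y : L) : Ω) = τ (y : Ω) := restrictNormal_commutes τ L y
      rw [h5, hh₀, h4, h6, hxy]
    · intro h' ho' hh'
      have ho2 : IsOpen (((h'.comp r).ker ⊓ h.ker : Subgroup Gal(Ω/K)) : Set Gal(Ω/K)) := by
        refine open_inf ?_ h1
        have h5 : ((h'.comp r).ker : Set Gal(Ω/K)) = r ⁻¹' (h'.ker : Set (E ≃ₐ[K] E)) := by
          ext τ
          rw [Set.mem_preimage, SetLike.mem_coe, SetLike.mem_coe, MonoidHom.mem_ker,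
            MonoidHom.mem_ker, MonoidHom.comp_apply]
        rw [h5]
        exact ho'.preimage hcont
      have hR2 : Rad S g ≤ (h'.comp r).ker ⊓ h.ker := by
        refine le_inf ?_ h2
        rw [← hrk]
        intro τ hτ
        rw [MonoidHom.mem_ker, MonoidHom.comp_apply, (MonoidHom.mem_ker).1 hτ, map_one]
      have h6 : (⊤ : Subgroup Gal(Ω/K)) ≤ (h'.comp r).eqLocus h := by
        rw [← (s2 _ ho2 hR2).2.1, sup_le_iff, Subgroup.closure_le]
        constructor
        · rintro _ ⟨i, rfl⟩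
          change h' (r (σ i)) = h (σ i)
          rw [hh', h3]
        · intro τ hτ
          obtain ⟨t1, t2⟩ := Subgroup.mem_inf.1 hτ
          change (h'.comp r) τ = h τ
          rw [(MonoidHom.mem_ker).1 t1, (MonoidHom.mem_ker).1 t2]
      apply MonoidHom.ext
      intro τ
      obtain ⟨τ, rfl⟩ := hrs τ
      rw [hh₀]
      exact h6 (Subgroup.mem_top τ)

end

end Pool.Agent.L7h25.FP
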