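import Mathlib
import Pool.Agent.L7h25.FP.Bi
import Pool.Agent.L7h25.FP.Gal

/-!
The Galois groups of the maximal extensions do not depend on the fields.
-/

set_option autoImplicit false

namespace Pool.Agent.L7h25.FP

open Pool.Agent.Y60.DC
open Pool.Agent.TH15.IGP (Lim exists_lim)
open IntermediateField AlgEquiv

section

variable {S : ∀ (T : Type) [Group T], Prop}

theorem rad_comp {G : Type} [Group G] [TopologicalSpace G] {Γ Γ' : Type} [Group Γ] [Group Γ']
    (g : G →* Γ) (e : Γ ≃* Γ') : Rad S (e.toMonoidHom.comp g) = Rad S g := by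
  ext x
  constructor
  · intro hx W _ _ f q hl
    obtain ⟨h1, h2, h3, h4⟩ := hl
    refine hx W f (e.toMonoidHom.comp q) ⟨h1, h2, fun z => ?_, ?_⟩
    · rw [MonoidHom.comp_apply, MonoidHom.comp_apply, h3]
    · have h5 : (e.toMonoidHom.comp q).ker = q.ker := by
        ext z
        rw [MonoidHom.mem_ker, MonoidHom.mem_ker]
        exact map_eq_one_iff e e.injective
      rw [h5]
      exact h4
  · intro hx W _ _ f q hl
    obtain ⟨h1, h2, h3, h4⟩ := hl
    refine hx W f (e.symm.toMonoidHom.comp q) ⟨h1, h2, fun z => ?_, ?_⟩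
    · rw [MonoidHom.comp_apply, h3]
      exact e.symm_apply_apply (g z)
    · have h5 : (e.symm.toMonoidHom.comp q).ker = q.ker := by
        ext z
        rw [MonoidHom.mem_ker, MonoidHom.mem_ker]
        exact map_eq_one_iff e.symm e.symm.injective
      rw [h5]
      exact h4

variable {K Ω : Type} [Field K] [Field Ω] [Algebra K Ω]

theorem exists_equiv_lim [IsGalois K Ω] (E : IntermediateField K Ω) {W : ℕ → Type}
    [∀ n, Group (W n)] (p : ∀ n, W (n + 1) →* W n) (f : ∀ n, Gal(Ω/K) →* W n)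
    (hf : ∀ n, Function.Surjective (f n)) (ho : ∀ n, IsOpen ((f n).ker : Set Gal(Ω/K)))
    (hp : ∀ n z, p n (f (n + 1) z) = f n z)
    (hrad : ∀ z, (∀ n, f n z = 1) ↔ z ∈ E.fixingSubgroup) :
    ∃ (_ : IsGalois K E) (e : Gal(E/K) ≃* Lim p),
      ∀ (σ : Gal(Ω/K)) (i : ℕ), (e (restrictNormalHom E σ)).1 i = f i σ := by
  obtain ⟨E1, hE1, e1, he1⟩ := exists_lim p f hf ho hp
  have h1 : E1.fixingSubgroup = E.fixingSubgroup := by
    ext σ
    rw [← hrad, ← restrictNormalHom_ker, MonoidHom.mem_ker]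
    constructor
    · intro h n
      rw [← he1, h, map_one]
      rfl
    · intro h
      apply e1.injective
      rw [map_one]
      apply Subtype.ext
      funext n
      rw [he1]
      exact h n
  have h2 : E1 = E := by
    rw [← InfiniteGalois.fixedField_fixingSubgroup E1, h1,
      InfiniteGalois.fixedField_fixingSubgroup]
  subst h2
  exact ⟨hE1, e1, he1⟩

theorem open_of_comp [IsGalois K Ω] (E : IntermediateField K Ω) [IsGalois K E] {B : Type}
    [Group B] (f : Gal(Ω/K) →* B) (ho : IsOpen (f.ker : Set Gal(Ω/K))) (h : Gal(E/K) →* B)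
    (hh : ∀ σ, h (restrictNormalHom E σ) = f σ) : IsOpen (h.ker : Set Gal(E/K)) := by
  have hcont := InfiniteGalois.restrictNormalHom_continuous (k := K) (K := Ω) E
  have hquot := (hcont.isClosedMap).isQuotientMap hcont (restrictNormalHom_surjective Ω)
  rw [← hquot.isOpen_preimage]
  have h5 : (restrictNormalHom (F := K) (K₁ := Ω) E) ⁻¹' (h.ker : Set Gal(E/K)) =
      (f.ker : Set Gal(Ω/K)) := by
    ext τ
    rw [Set.mem_preimage, SetLike.mem_coe, SetLike.mem_coe, MonoidHom.mem_ker,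
      MonoidHom.mem_ker, hh]
  rw [h5]
  exact ho

/-- Independence of the fields. -/
theorem sameGroups [IsGalois K Ω] [Countable K] {K' Ω' : Type} [Field K'] [Field Ω']
    [Algebra K' Ω'] [IsGalois K' Ω'] [Countable K']
    (hiso : ∀ (T T' : Type) [Group T] [Group T'], Nonempty (T ≃* T') → S T → S T')
    (hsim : ∀ (T : Type) [Group T], S T → IsSimpleGroup T)
    (hS : Solves S (G := Gal(Ω/K))) (hS' : Solves S (G := Gal(Ω'/K')))
    (L : IntermediateField K Ω) [FiniteDimensional K L] [IsGalois K L]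
    (L' : IntermediateField K' Ω') [FiniteDimensional K' L'] [IsGalois K' L']
    (e : (L ≃ₐ[K] L) ≃* (L' ≃ₐ[K'] L')) : SameGroups (maxExt S L) (maxExt S L') e := by
  classical
  set g : Gal(Ω/K) →* (L ≃ₐ[K] L) := restrictNormalHom L with hg
  have hgs : Function.Surjective g := restrictNormalHom_surjective Ω
  have hgo : IsOpen (g.ker : Set Gal(Ω/K)) := by
    rw [hg, restrictNormalHom_ker]
    exact L.fixingSubgroup_isOpen
  set g₀ : Gal(Ω'/K') →* (L' ≃ₐ[K'] L') := restrictNormalHom L' with hg₀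
  have hgs₀ : Function.Surjective g₀ := restrictNormalHom_surjective Ω'
  have hgo₀ : IsOpen (g₀.ker : Set Gal(Ω'/K')) := by
    rw [hg₀, restrictNormalHom_ker]
    exact L'.fixingSubgroup_isOpen
  set g' : Gal(Ω'/K') →* (L ≃ₐ[K] L) := e.symm.toMonoidHom.comp g₀ with hg'
  have hgs' : Function.Surjective g' := e.symm.surjective.comp hgs₀
  have hgk' : g'.ker = g₀.ker := by
    ext z
    rw [MonoidHom.mem_ker, MonoidHom.mem_ker]
    exact map_eq_one_iff e.symm e.symm.injective
  have hgo' : IsOpen (g'.ker : Set Gal(Ω'/K')) := by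
    rw [hgk']
    exact hgo₀
  obtain ⟨W, iW, p, f, f', q, l1, l2, p1, p2, r1, r2⟩ := exists_common (S := S) (g := g)
    (g' := g') countable_open countable_open hiso hsim hS hS' hgs hgo hgs' hgo'
  have hrad := rad_eq (Ω := Ω) hiso hsim L
  have hrad' := rad_eq (Ω := Ω') hiso hsim L'
  have hradg' : Rad S g' = Rad S g₀ := rad_comp g₀ e.symm
  obtain ⟨hE, ε, hε⟩ := exists_equiv_lim (maxExt S L) p f (fun n => (l1 n).1)
    (fun n => (l1 n).2.1) p1 (fun z => by rw [r1, hrad])
  obtain ⟨hE', ε', hε'⟩ := exists_equiv_lim (maxExt S L') p f' (fun n => (l2 n).1)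
    (fun n => (l2 n).2.1) p2 (fun z => by rw [r2, hradg', hrad'])
  let a : ∀ n, Gal((maxExt S L)/K) →* W n := fun n =>
    (Pi.evalMonoidHom (fun i => W i) n).comp ((Lim p).subtype.comp ε.toMonoidHom)
  let a' : ∀ n, Gal((maxExt S L')/K') →* W n := fun n =>
    (Pi.evalMonoidHom (fun i => W i) n).comp ((Lim p).subtype.comp ε'.toMonoidHom)
  have ha : ∀ n, IsOpen ((a n).ker : Set Gal((maxExt S L)/K)) := fun n =>
    open_of_comp (maxExt S L) (f n) (l1 n).2.1 (a n) (fun σ => hε σ n)
  have ha' : ∀ n, IsOpen ((a' n).ker : Set Gal((maxExt S L')/K')) := fun n =>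
    open_of_comp (maxExt S L') (f' n) (l2 n).2.1 (a' n) (fun σ => hε' σ n)
  let Φ : Gal((maxExt S L)/K) ≃* Gal((maxExt S L')/K') := ε.trans ε'.symm
  have hΦ : ∀ n z, a' n (Φ z) = a n z := by
    intro n z
    change (ε' (ε'.symm (ε z))).1 n = (ε z).1 n
    rw [ε'.apply_symm_apply]
  have hinj : ∀ z, (∀ n, a n z = 1) → z = 1 := by
    intro z hz
    apply ε.injective
    rw [map_one]
    apply Subtype.ext
    funext n
    exact hz n
  have hinj' : ∀ z, (∀ n, a' n z = 1) → z = 1 := by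
    intro z hz
    apply ε'.injective
    rw [map_one]
    apply Subtype.ext
    funext n
    exact hz n
  have hLE : L ≤ maxExt S L := by
    have h0 : (maxExt S L).fixingSubgroup ≤ L.fixingSubgroup → L ≤ maxExt S L := by
      intro h
      have h' := IntermediateField.fixedField_antitone (F := K) (E := Ω) h
      rwa [InfiniteGalois.fixedField_fixingSubgroup, InfiniteGalois.fixedField_fixingSubgroup]
        at h'
    apply h0
    rw [hrad]
    intro τ hτ
    have hk : CompIn S (MonoidHom.id (L ≃ₐ[K] L)).ker := by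
      refine CompIn.one _ ⟨fun a b => ?_⟩
      have ha := (MonoidHom.mem_ker).1 a.2
      have hb := (MonoidHom.mem_ker).1 b.2
      exact Subtype.ext (ha.trans hb.symm)
    have h1 := hτ (L ≃ₐ[K] L) g (MonoidHom.id _) ⟨hgs, hgo, fun _ => rfl, hk⟩
    rw [← restrictNormalHom_ker, MonoidHom.mem_ker]
    exact h1
  refine ⟨Φ, ?_, ?_, ?_⟩
  · exact cont_of_lim p a a' ha ha' (fun n z => (ε' z).2 n) hinj' Φ.toMonoidHom hΦ
  · refine cont_of_lim p a' a ha' ha (fun n z => (ε z).2 n) hinj Φ.symm.toMonoidHom ?_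
    intro n z
    rw [← hΦ]
    change a' n (Φ (Φ.symm z)) = a' n z
    rw [Φ.apply_symm_apply]
  · intro σ τ hστ x y hxy
    obtain ⟨σ₀, rfl⟩ := restrictNormalHom_surjective (F := K) (K₁ := maxExt S L) Ω σ
    obtain ⟨ρ, hρ⟩ := restrictNormalHom_surjective (F := K') (K₁ := maxExt S L') Ω'
      (Φ (restrictNormalHom (maxExt S L) σ₀))
    -- the restriction of `σ₀` to `L` is `τ`
    have h1 : g σ₀ = τ := by
      apply AlgEquiv.ext
      intro y
      apply Subtype.ext
      have h2 := hστ ⟨(y : Ω), hLE y.2⟩ y rfl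
      have h3 : ((restrictNormalHom (maxExt S L) σ₀ ⟨(y : Ω), hLE y.2⟩ : maxExt S L) : Ω) =
        σ₀ (y : Ω) := restrictNormal_commutes σ₀ (maxExt S L) ⟨(y : Ω), hLE y.2⟩
      have h4 : ((g σ₀ y : L) : Ω) = σ₀ (y : Ω) := restrictNormal_commutes σ₀ L y
      rw [h4, ← h3, h2]
    have h5 : f' 0 ρ = f 0 σ₀ := by
      rw [← hε', ← hε, hρ]
      exact hΦ 0 _
    have h6 : g' ρ = g σ₀ := by
      rw [← (l2 0).2.2.1, h5, (l1 0).2.2.1]
    have h7 : g₀ ρ = e τ := by
      rw [← h1, ← h6]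
      exact (e.apply_symm_apply (g₀ ρ)).symm
    rw [← hρ, ← h7]
    have h8 : ((restrictNormalHom (maxExt S L') ρ x : maxExt S L') : Ω') = ρ (x : Ω') :=
      restrictNormal_commutes ρ (maxExt S L') x
    have h9 : ((g₀ ρ y : L') : Ω') = ρ (y : Ω') := restrictNormal_commutes ρ L' y
    rw [h8, h9, hxy]

end

end Pool.Agent.L7h25.FP
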