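import Mathlib
import Pool.Agent.L7h25.FP.Gal
import Pool.Agent.L7h25.FP.Ind
import Pool.Agent.TH377.IG.TowSpec
import Pool.Agent.L7h25.LG.Main

/-!
Free pro-`C` Galois groups over countable Hilbertian fields of characteristic `p`, and infinite
towers of embedding problems.
-/

set_option autoImplicit false

namespace Pool.Agent.L7h25.FP

open Pool.Agent.Y60.DC Pool.Agent.Y60.DCF
open Pool.Agent.H391R2.T4 (RegSol HilbField)
open Pool.Agent.TH15.IGP (Lim)
open Pool.Agent.TH444.TW (infinite_of_hilb)
open Pool.Agent.TH377.IG (SpecProp spec_hilb)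
open Pool.Agent.N70.PP.Voc (Hilbertian)
open Pool.Agent.L7h25.LG
open Pool.Agent.L7h25.AN (rskA_field)

variable {p : ℕ} [Fact p.Prime]

/-- Embedding problems over Hilbertian fields of characteristic `p` are solvable if the kernels have
composition factors in `FactorC p`. -/
theorem solves_hilb {S : ∀ (T : Type) [Group T], Prop}
    (hSp : ∀ (T : Type) [Group T], S T → FactorC p T) {K Ω : Type} [Field K] [CharP K p]
    [Field Ω] [Algebra K Ω] [IsGalois K Ω] [IsSepClosed Ω] (hK : Hilbertian K) :
    Solves S (G := (Ω ≃ₐ[K] Ω)) := by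
  have hK' : HilbField K := hK
  have hinf : Infinite K := infinite_of_hilb hK'
  intro W W' _ _ _ π hπ hk f hf ho
  obtain ⟨f', h1, h2, h3, -⟩ := Pool.Agent.TH377.IG.stepW (Ω := Ω) (spec_hilb hK') π
    (fun L _ _ _ _ ε => by
      refine regL_inf (p := p) K L W' _ (ε.symm.surjective.comp hπ) ?_
      have h1 : (ε.symm.toMonoidHom.comp π).ker = π.ker := by
        ext x
        rw [MonoidHom.mem_ker, MonoidHom.mem_ker]
        exact map_eq_one_iff ε.symm ε.symm.injective
      rw [h1]
      exact compIn_mono (fun T _ h => FactorC.old (hSp T h)) hk) ⊥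
    ⟨inferInstance, inferInstance⟩ f hf ho
  exact ⟨f', h1, h2, h3⟩

/-- The free Galois groups. -/
theorem isFree_hilb {S : ∀ (T : Type) [Group T], Prop} (hiso : IsoClosed S)
    (hSp : ∀ (T : Type) [Group T], S T → FactorC p T) {K Ω : Type} [Field K] [CharP K p]
    [Countable K] [Field Ω] [Algebra K Ω] [IsGalois K Ω] [IsSepClosed Ω] (hK : Hilbertian K)
    (L : IntermediateField K Ω)
    [FiniteDimensional K L] [IsGalois K L] (γ : ℕ → (L ≃ₐ[K] L)) (hγ : Marked γ) :
    IsFree S L (maxExt S L) γ :=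
  isFree_of_solves hiso (fun T _ h => FacL.simple T (FactorC.old (hSp T h)))
    (solves_hilb hSp hK) L γ hγ

/-- Independence of the fields. -/
theorem sameGroups_hilb {S : ∀ (T : Type) [Group T], Prop} (hiso : IsoClosed S)
    (hSp : ∀ (T : Type) [Group T], S T → FactorC p T) {p' : ℕ} [Fact p'.Prime]
    (hSp' : ∀ (T : Type) [Group T], S T → FactorC p' T) {K Ω : Type} [Field K] [CharP K p]
    [Countable K] [Field Ω] [Algebra K Ω] [IsGalois K Ω] [IsSepClosed Ω] (hK : Hilbertian K)
    {K' Ω' : Type} [Field K'] [CharP K' p'] [Countable K'] [Field Ω'] [Algebra K' Ω']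
    [IsGalois K' Ω'] [IsSepClosed Ω'] (hK' : Hilbertian K') (L : IntermediateField K Ω)
    [FiniteDimensional K L] [IsGalois K L] (L' : IntermediateField K' Ω')
    [FiniteDimensional K' L'] [IsGalois K' L'] (e : (L ≃ₐ[K] L) ≃* (L' ≃ₐ[K'] L')) :
    SameGroups (maxExt S L) (maxExt S L') e :=
  sameGroups hiso (fun T _ h => FacL.simple T (FactorC.old (hSp T h)))
    (solves_hilb hSp hK) (solves_hilb hSp' hK') L L' e

/-- Infinite towers. -/
theorem tower_hilb {K : Type} [Field K] [CharP K p] (hK : Hilbertian K) (W : ℕ → Type)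
    [∀ i, Group (W i)] (π : ∀ i, W (i + 1) →* W i) (h : ∀ i, Chain p (π i))
    (L : Type) [Field L] [Algebra K L] [FiniteDimensional K L] [IsGalois K L]
    (e : W 0 ≃* (L ≃ₐ[K] L)) :
    SolvesTower K L W (Lim π) e := by
  have hfin : ∀ i, Finite (W i) := by
    intro i
    induction i with
    | zero =>
      have : Finite (L ≃ₐ[K] L) := inferInstance
      exact Finite.of_equiv _ e.symm.toEquiv
    | succ i ih => exact ((h i).main ih).1
  have hK' : HilbField K := hK
  refine Pool.Agent.TH377.IG.tower_spec (spec_hilb hK') W π (fun i L' _ _ _ _ ε => ?_) L e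
  exact (rskA_field ((h i).main (hfin i)).2 K).all L' ε

end Pool.Agent.L7h25.FP
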