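import Mathlib
import Pool.Agent.L7h25.FP.Main

/-!
The case of the rational function fields, and the case `L = K`.
-/

set_option autoImplicit false

namespace Pool.Agent.L7h25.FP

open Pool.Agent.Y60.DC
open Pool.Agent.N70.PP.Voc (Hilbertian)
open Pool.Agent.L7h25.LG (FactorC FacL FactorC.old)

theorem countable_ratFunc (k : Type) [Field k] [Countable k] : Countable (RatFunc k) := by
  have h0 : Countable (Polynomial k) := by
    rw [← Cardinal.mk_le_aleph0_iff]
    exact Polynomial.cardinalMk_le_max.trans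
      (max_le (Cardinal.mk_le_aleph0_iff.2 inferInstance) le_rfl)
  have h : Function.Surjective fun x : Polynomial k × Polynomial k =>
      algebraMap (Polynomial k) (RatFunc k) x.1 / algebraMap (Polynomial k) (RatFunc k) x.2 := by
    intro z
    obtain ⟨a, b, -, hb⟩ := IsFractionRing.div_surjective (A := Polynomial k) z
    exact ⟨(a, b), hb⟩
  exact h.countable

theorem hilbertian_ratFunc (k : Type) [Field k] : Hilbertian (RatFunc k) :=
  Pool.Agent.Y140.HD.hilb_ratFunc k

section bot

variable {S : ∀ (T : Type) [Group T], Prop} {K Ω : Type} [Field K] [Field Ω] [Algebra K Ω]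

theorem relGal_bot (M : IntermediateField K Ω) :
    relGal (⊥ : IntermediateField K Ω) M = ⊤ := by
  rw [eq_top_iff]
  intro σ _ x hx
  obtain ⟨c, hc⟩ := IntermediateField.mem_bot.1 hx
  have h1 : x = algebraMap K M c := Subtype.ext hc.symm
  rw [h1]
  exact σ.commutes c

theorem subsingleton_bot :
    Subsingleton ((⊥ : IntermediateField K Ω) ≃ₐ[K] (⊥ : IntermediateField K Ω)) := by
  refine ⟨fun σ τ => ?_⟩
  apply AlgEquiv.ext
  intro x
  obtain ⟨c, hc⟩ := IntermediateField.mem_bot.1 x.2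
  have h1 : x = algebraMap K (⊥ : IntermediateField K Ω) c := Subtype.ext hc.symm
  rw [h1, σ.commutes, τ.commutes]

theorem maxPro_eq (hiso : IsoClosed S) (hsim : ∀ (T : Type) [Group T], S T → IsSimpleGroup T) :
    maxPro S K Ω = maxExt S (⊥ : IntermediateField K Ω) := by
  unfold maxPro maxExt
  congr 1
  ext M
  constructor
  · rintro ⟨h1, h2, h3⟩
    refine ⟨h1, h2, bot_le, ?_⟩
    rw [relGal_bot]
    exact compIn_iso hiso hsim Subgroup.topEquiv.symm h3
  · rintro ⟨h1, h2, -, h3⟩
    refine ⟨h1, h2, ?_⟩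
    rw [relGal_bot] at h3
    exact compIn_iso hiso hsim Subgroup.topEquiv h3

theorem isFreePro (hiso : IsoClosed S) (hsim : ∀ (T : Type) [Group T], S T → IsSimpleGroup T)
    (h : IsFree S (⊥ : IntermediateField K Ω) (maxExt S ⊥) (fun _ => 1)) : IsFreePro S (maxPro S K Ω) := by
  rw [maxPro_eq hiso hsim]
  obtain ⟨h1, h2, h3, σ, h4, h5, h6⟩ := h
  refine ⟨h1, fun B _ h hs ho => ?_, σ, h5, fun B _ _ hB b hb => ?_⟩
  · have h7 := h3 B h hs ho
    rw [relGal_bot, ← MonoidHom.range_eq_map, MonoidHom.range_eq_top.2 hs] at h7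
    exact compIn_iso hiso hsim Subgroup.topEquiv h7
  · have hk : CompIn S (1 : B →* ((⊥ : IntermediateField K Ω) ≃ₐ[K]
        (⊥ : IntermediateField K Ω))).ker := by
      rw [MonoidHom.ker_one]
      exact compIn_iso hiso hsim Subgroup.topEquiv.symm hB
    obtain ⟨h, g1, g2, -, g3⟩ := h6 B 1 hk b hb (fun i => rfl)
    exact ⟨h, ⟨g1, g2⟩, fun h' hh' => g3 h' hh'.1 hh'.2⟩

theorem marked_bot : Marked (fun _ : ℕ => (1 : ((⊥ : IntermediateField K Ω) ≃ₐ[K]
    (⊥ : IntermediateField K Ω)))) := by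
  have hs := subsingleton_bot (K := K) (Ω := Ω)
  refine ⟨⟨0, fun _ _ => rfl⟩, ?_⟩
  rw [eq_top_iff]
  intro x _
  rw [Subsingleton.elim x 1]
  exact Subgroup.one_mem _

end bot

/-- The free pro-`C` groups over countable Hilbertian fields of characteristic `p`. -/
theorem isFreePro_hilb {p : ℕ} [Fact p.Prime] {S : ∀ (T : Type) [Group T], Prop}
    (hiso : IsoClosed S) (hSp : ∀ (T : Type) [Group T], S T → FactorC p T) {K Ω : Type} [Field K]
    [CharP K p] [Countable K] [Field Ω] [Algebra K Ω] [IsGalois K Ω] [IsSepClosed Ω]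
    (hK : Hilbertian K) : IsFreePro S (maxPro S K Ω) :=
  isFreePro hiso (fun T _ h => FacL.simple T (FactorC.old (hSp T h)))
    (isFree_hilb hiso hSp hK ⊥ _ marked_bot)

/-- The free pro-`C` groups over rational function fields. -/
theorem isFreePro_ratFunc {p : ℕ} [Fact p.Prime] {S : ∀ (T : Type) [Group T], Prop}
    (hiso : IsoClosed S) (hSp : ∀ (T : Type) [Group T], S T → FactorC p T) (k Ω : Type) [Field k]
    [CharP k p] [Countable k] [Field Ω] [Algebra (RatFunc k) Ω] [IsGalois (RatFunc k) Ω]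
    [IsSepClosed Ω] : IsFreePro S (maxPro S (RatFunc k) Ω) := by
  have h1 : CharP (RatFunc k) p := Pool.Agent.Y60.DC.charP_ratFunc k p
  have h2 : Countable (RatFunc k) := countable_ratFunc k
  exact isFreePro_hilb hiso hSp (hilbertian_ratFunc k)

end Pool.Agent.L7h25.FP
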