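import Mathlib
import Pool.Agent.L7h25.FP.VocF
import Pool.Agent.L7h25.FP.Cor

/-!
The theorems in the final form.
-/

set_option autoImplicit false

namespace Pool.Agent.L7h25.FP

open Pool.Agent.Y60.DC
open Pool.Agent.H391R2.T4 (RegSol HilbField)
open Pool.Agent.TH15.IGP (Lim)
open Pool.Agent.TH377.IG (SpecProp spec_hilb towerP stepW)
open Pool.Agent.N70.PP.Voc (Hilbertian)
open Pool.Agent.L7h25.LG
open Pool.Agent.L7h25.AN (rskA_field)
open IntermediateField AlgEquiv

section

variable {S : ∀ (T : Type) [Group T], Prop} {K Ω : Type} [Field K] [Field Ω] [Algebra K Ω]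

theorem relGal_eq (L M : IntermediateField K Ω) :
    (V.relGal L M : Subgroup (M ≃ₐ[K] M)) = relGal L M := by
  ext σ
  exact IntermediateField.mem_fixingSubgroup_iff (L.comap M.val) σ

theorem maxExt_eq (L : IntermediateField K Ω) : V.maxExt S L = maxExt S L := by
  unfold V.maxExt maxExt
  congr 1
  ext M
  constructor
  · rintro ⟨h1, h2, h3, h4⟩
    have h5 : CompIn S (V.relGal L M : Subgroup (M ≃ₐ[K] M)) := h4
    rw [relGal_eq] at h5
    exact ⟨h1, h2, h3, h5⟩
  · rintro ⟨h1, h2, h3, h4⟩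
    rw [← relGal_eq] at h4
    exact ⟨h1, h2, h3, h4⟩

theorem bridge_free {L E : IntermediateField K Ω} {γ : ℕ → (L ≃ₐ[K] L)} (h : IsFree S L E γ) :
    V.IsFree S L E γ := by
  obtain ⟨h1, h2, h3, σ, h4, h5, h6⟩ := h
  refine ⟨h1, h2, ?_, σ, ?_, ?_, ?_⟩
  · intro B _ h hs ho
    have h7 := h3 B h hs ho
    rw [← relGal_eq] at h7
    exact h7
  · intro i x y hxy
    exact h4 i x y hxy
  · intro x
    obtain ⟨m, hm⟩ := h5 x
    exact ⟨m, fun i hi => congrArg Subtype.val (hm i hi)⟩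
  · intro B _ _ π hπ b hb hbγ
    obtain ⟨h, g1, g2, g3, g4⟩ := h6 B π hπ b hb hbγ
    exact ⟨h, ⟨g1, g2⟩, fun τ x y hxy => g3 τ x y hxy, fun h' hh' => g4 h' hh'.1 hh'.2⟩

theorem bridge_pro {E : IntermediateField K Ω} (h : IsFreePro S E) : V.IsFreePro S E := by
  obtain ⟨h1, h2, σ, h3, h4⟩ := h
  refine ⟨h1, fun B _ h hs ho => h2 B h hs ho, σ, fun x => ?_, fun B _ _ hB b hb => ?_⟩
  · obtain ⟨m, hm⟩ := h3 x
    exact ⟨m, fun i hi => congrArg Subtype.val (hm i hi)⟩
  · exact h4 B hB b hb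

theorem bridge_same {K' Ω' : Type} [Field K'] [Field Ω'] [Algebra K' Ω']
    {L : IntermediateField K Ω} {L' : IntermediateField K' Ω'} {E : IntermediateField K Ω}
    {E' : IntermediateField K' Ω'} {e : (L ≃ₐ[K] L) ≃* (L' ≃ₐ[K'] L')} (h : SameGroups E E' e) :
    V.SameGroups E E' e := by
  obtain ⟨Φ, h1, h2, h3⟩ := h
  exact ⟨Φ, h1, h2, fun σ τ hh x y hxy => h3 σ τ hh x y hxy⟩

end

variable {p : ℕ} [Fact p.Prime]

/-- Infinite towers in a separable closure. -/
theorem tower_sep {K Ω : Type} [Field K] [CharP K p] [Field Ω] [Algebra K Ω] [IsGalois K Ω]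
    [IsSepClosed Ω] (hK : Hilbertian K) (W : ℕ → Type)
    [∀ i, Group (W i)] (π : ∀ i, W (i + 1) →* W i) (h : ∀ i, Chain p (π i))
    (L : IntermediateField K Ω) [FiniteDimensional K L] [IsGalois K L]
    (e : W 0 ≃* (L ≃ₐ[K] L)) : V.SolvesTower L W (Lim π) e := by
  classical
  have hfin : ∀ i, Finite (W i) := by
    intro i
    induction i with
    | zero =>
      have : Finite (L ≃ₐ[K] L) := inferInstance
      exact Finite.of_equiv _ e.symm.toEquiv
    | succ i ih => exact ((h i).main ih).1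
  have hK' : HilbField K := hK
  set g : Gal(Ω/K) →* (L ≃ₐ[K] L) := restrictNormalHom L with hg
  have hgs : Function.Surjective g := restrictNormalHom_surjective Ω
  have hgk : g.ker = L.fixingSubgroup := restrictNormalHom_ker L
  let f₀ : Gal(Ω/K) →* W 0 := e.symm.toMonoidHom.comp g
  have hfk : f₀.ker = L.fixingSubgroup := by
    rw [← hgk]
    ext σ
    rw [MonoidHom.mem_ker, MonoidHom.mem_ker]
    exact map_eq_one_iff e.symm e.symm.injective
  have ho : IsOpen (f₀.ker : Set Gal(Ω/K)) := by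
    rw [hfk]
    exact L.fixingSubgroup_isOpen
  obtain ⟨F, hF, ε, he0, heo, hey⟩ := towerP (k := K) (Ω := Ω) π (fun _ => True)
    (fun i f hf hfo _ => by
      have hfi := hfin i
      have hfi' := hfin (i + 1)
      obtain ⟨f', h1, h2, h3, -⟩ := stepW (spec_hilb hK') (π i)
        (fun L' _ _ _ _ ε' => (rskA_field ((h i).main (hfin i)).2 K).all L' ε') ⊥
        ⟨inferInstance, inferInstance⟩ f hf hfo
      exact ⟨f', h1, h2, trivial, h3⟩) f₀ (e.symm.surjective.comp hgs) ho trivial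
  have hLF : L ≤ F := by
    have h0 : F.fixingSubgroup ≤ L.fixingSubgroup := by
      intro σ hσ
      rw [← restrictNormalHom_ker, MonoidHom.mem_ker] at hσ
      rw [← hfk, MonoidHom.mem_ker, ← he0, hσ, map_one]
      rfl
    have h' := IntermediateField.fixedField_antitone (F := K) (E := Ω) h0
    rwa [InfiniteGalois.fixedField_fixingSubgroup, InfiniteGalois.fixedField_fixingSubgroup]
      at h'
  refine ⟨F, hF, hLF, ε, heo, fun σ x y hxy => ?_⟩
  obtain ⟨σ, rfl⟩ := restrictNormalHom_surjective (F := K) (K₁ := F) Ω σ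
  have h1 : ((restrictNormalHom F σ x : F) : Ω) = σ (x : Ω) := restrictNormal_commutes σ F x
  have h2 : ((g σ y : L) : Ω) = σ (y : Ω) := restrictNormal_commutes σ L y
  have h3 : e ((ε (restrictNormalHom F σ)).1 0) = g σ := by
    rw [he0]
    exact e.apply_symm_apply (g σ)
  change ((restrictNormalHom F σ x : F) : Ω) =
    ((e ((ε (restrictNormalHom F σ)).1 0) y : L) : Ω)
  rw [h3, h1, h2]
  exact congrArg σ hxy

end Pool.Agent.L7h25.FP
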